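import Mathlib

/-! Lifting of squares in families of spaces over an interval. -/

set_option autoImplicit false

open Topology Set unitInterval

namespace Pool.Agent.X325.EC

variable {W : Type*} [TopologicalSpace W]

/-- squares over `[a, b]` with prescribed sides `p`, `p'` exist -/
def Lifts (F : ℝ → Set W) (p p' : ℝ → W) (a b : ℝ) : Prop :=
  ∀ β : C(I, W), (∀ u, β u ∈ F a) → β 0 = p a → β 1 = p' a →
    ∃ B : C(ℝ × I, W), (∀ s ∈ Icc a b, ∀ u, B (s, u) ∈ F s) ∧ (∀ u, B (a, u) = β u) ∧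
      ∀ s ∈ Icc a b, B (s, 0) = p s ∧ B (s, 1) = p' s

variable {F : ℝ → Set W} {p p' : ℝ → W}

theorem Lifts.trans {a b c : ℝ} (hab : a ≤ b) (h1 : Lifts F p p' a b)
    (h2 : Lifts F p p' b c) : Lifts F p p' a c := by
  intro β hβ h0 h1'
  obtain ⟨B, hB1, hB2, hB3⟩ := h1 β hβ h0 h1'
  obtain ⟨B', hB1', hB2', hB3'⟩ := h2 ⟨fun u => B (b, u), by fun_prop⟩
    (fun u => hB1 b ⟨hab, le_rfl⟩ u) (hB3 b ⟨hab, le_rfl⟩).1 (hB3 b ⟨hab, le_rfl⟩).2
  refine ⟨⟨fun x => if x.1 ≤ b then B x else B' x,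
    Continuous.if_le B.continuous B'.continuous continuous_fst continuous_const ?_⟩, ?_, ?_, ?_⟩
  · rintro ⟨s, u⟩ hs
    have hs' : s = b := hs
    subst hs'
    exact (hB2' u).symm
  · intro s hs u
    show (if s ≤ b then B (s, u) else B' (s, u)) ∈ F s
    split_ifs with h
    · exact hB1 s ⟨hs.1, h⟩ u
    · exact hB1' s ⟨(not_le.mp h).le, hs.2⟩ u
  · intro u
    show (if a ≤ b then B (a, u) else B' (a, u)) = β u
    rw [if_pos hab]
    exact hB2 u
  · intro s hs
    show (if s ≤ b then B (s, 0) else B' (s, 0)) = p s ∧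
      (if s ≤ b then B (s, 1) else B' (s, 1)) = p' s
    split_ifs with h
    · exact hB3 s ⟨hs.1, h⟩
    · exact hB3' s ⟨(not_le.mp h).le, hs.2⟩

/-- the family is trivial over `[a, b]` -/
def Triv (F : ℝ → Set W) (a b : ℝ) : Prop :=
  ∃ Φ Ψ : ℝ × W → W, ContinuousOn Φ (Icc a b ×ˢ F a) ∧
    ContinuousOn Ψ {x | x.1 ∈ Icc a b ∧ x.2 ∈ F x.1} ∧
    (∀ s ∈ Icc a b, ∀ w ∈ F a, Φ (s, w) ∈ F s) ∧
    (∀ s ∈ Icc a b, ∀ w ∈ F s, Ψ (s, w) ∈ F a ∧ Φ (s, Ψ (s, w)) = w) ∧
    ∀ w ∈ F a, Φ (a, w) = w ∧ Ψ (a, w) = w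

theorem Triv.lifts {a b : ℝ} (hab : a ≤ b) (h : Triv F a b) (hp : Continuous p)
    (hp' : Continuous p') (hpF : ∀ s ∈ Icc a b, p s ∈ F s) (hpF' : ∀ s ∈ Icc a b, p' s ∈ F s) :
    Lifts F p p' a b := by
  obtain ⟨Φ, Ψ, hΦ, hΨ, h1, h2, h3⟩ := h
  intro β hβ h0 h1'
  let cl : ℝ → ℝ := fun s => max a (min s b)
  have hcl : Continuous cl := by fun_prop
  have hclm : ∀ s, cl s ∈ Icc a b := fun s => ⟨le_max_left _ _, max_le hab (min_le_right _ _)⟩
  have hcle : ∀ s ∈ Icc a b, cl s = s := fun s hs => by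
    show max a (min s b) = s
    rw [min_eq_left hs.2, max_eq_right hs.1]
  have hq : ∀ r : ℝ → W, Continuous r → (∀ s ∈ Icc a b, r s ∈ F s) →
      Continuous (fun s => Ψ (cl s, r (cl s))) := fun r hr hrF =>
    hΨ.comp_continuous (by fun_prop) (fun s => ⟨hclm s, hrF _ (hclm s)⟩)
  let q : ℝ → W := fun s => Ψ (cl s, p (cl s))
  let q' : ℝ → W := fun s => Ψ (cl s, p' (cl s))
  have hqc : Continuous q := hq p hp hpF
  have hqc' : Continuous q' := hq p' hp' hpF'
  have ha : a ∈ Icc a b := ⟨le_rfl, hab⟩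
  have hqa : q a = p a := by
    show Ψ (cl a, p (cl a)) = p a
    rw [hcle a ha]
    exact (h3 _ (hpF a ha)).2
  have hqa' : q' a = p' a := by
    show Ψ (cl a, p' (cl a)) = p' a
    rw [hcle a ha]
    exact (h3 _ (hpF' a ha)).2
  let γ₂ : ℝ → W := fun v => if v ≤ 1 then IccExtend zero_le_one β v else q' (a + v - 1)
  have hγ₂ : Continuous γ₂ := by
    refine Continuous.if_le (β.continuous.Icc_extend') (by fun_prop) continuous_id
      continuous_const ?_
    intro v hv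
    have hv' : v = 1 := hv
    subst hv'
    rw [IccExtend_right, show a + 1 - 1 = a by ring, hqa']
    exact h1'
  let γ : ℝ → W := fun v => if v ≤ 0 then q (a - v) else γ₂ v
  have hγ : Continuous γ := by
    refine Continuous.if_le (by fun_prop) hγ₂ continuous_id continuous_const ?_
    intro v hv
    have hv' : v = 0 := hv
    subst hv'
    show q (a - 0) = if (0 : ℝ) ≤ 1 then IccExtend zero_le_one β 0 else q' (a + 0 - 1)
    rw [if_pos zero_le_one, IccExtend_left, sub_zero, hqa]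
    exact h0.symm
  have hγF : ∀ v, γ v ∈ F a := by
    intro v
    show (if v ≤ 0 then q (a - v) else
      if v ≤ 1 then IccExtend zero_le_one β v else q' (a + v - 1)) ∈ F a
    split_ifs
    · exact (h2 _ (hclm _) _ (hpF _ (hclm _))).1
    · exact hβ _
    · exact (h2 _ (hclm _) _ (hpF' _ (hclm _))).1
  refine ⟨⟨fun x => Φ (cl x.1, γ (-(cl x.1 - a) + x.2.1 * (1 + 2 * (cl x.1 - a)))), ?_⟩,
    ?_, ?_, ?_⟩
  · refine hΦ.comp_continuous (by fun_prop) (fun x => ⟨hclm _, hγF _⟩)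
  · intro s hs u
    show Φ (cl s, _) ∈ F s
    rw [hcle s hs]
    exact h1 s hs _ (hγF _)
  · intro u
    show Φ (cl a, γ (-(cl a - a) + u.1 * (1 + 2 * (cl a - a)))) = β u
    rw [hcle a ha, show -(a - a) + u.1 * (1 + 2 * (a - a)) = u.1 by ring,
      (h3 _ (hγF _)).1]
    show (if u.1 ≤ 0 then q (a - u.1) else
      if u.1 ≤ 1 then IccExtend zero_le_one β u.1 else q' (a + u.1 - 1)) = β u
    split_ifs with h4 h5
    · have h6 : u = 0 := Subtype.ext (le_antisymm h4 u.2.1)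
      subst h6
      show q (a - 0) = β 0
      rw [sub_zero, hqa, h0]
    · rw [IccExtend_val]
    · exact absurd u.2.2 h5
  · intro s hs
    constructor
    · show Φ (cl s, γ (-(cl s - a) + 0 * (1 + 2 * (cl s - a)))) = p s
      rw [hcle s hs, zero_mul, add_zero]
      have h4 : γ (-(s - a)) = q s := by
        show (if -(s - a) ≤ 0 then q (a - -(s - a)) else γ₂ _) = q s
        rw [if_pos (by linarith [hs.1]), show a - -(s - a) = s by ring]
      rw [h4]
      show Φ (s, Ψ (cl s, p (cl s))) = p s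
      rw [hcle s hs]
      exact (h2 s hs _ (hpF s hs)).2
    · show Φ (cl s, γ (-(cl s - a) + 1 * (1 + 2 * (cl s - a)))) = p' s
      rw [hcle s hs, show -(s - a) + 1 * (1 + 2 * (s - a)) = 1 + (s - a) by ring]
      have h4 : γ (1 + (s - a)) = q' s := by
        show (if 1 + (s - a) ≤ 0 then q (a - (1 + (s - a))) else
          if 1 + (s - a) ≤ 1 then IccExtend zero_le_one β (1 + (s - a)) else
            q' (a + (1 + (s - a)) - 1)) = q' s
        rw [if_neg (by linarith [hs.1])]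
        split_ifs with h5
        · have h6 : s = a := le_antisymm (by linarith) hs.1
          subst h6
          rw [sub_self, add_zero, IccExtend_right, hqa']
          exact h1'
        · rw [show a + (1 + (s - a)) - 1 = s by ring]
      rw [h4]
      show Φ (s, Ψ (cl s, p' (cl s))) = p' s
      rw [hcle s hs]
      exact (h2 s hs _ (hpF' s hs)).2

theorem lifts_of_triv {δ : ℝ} (hδ : 0 < δ)
    (h : ∀ a b, 0 ≤ a → a ≤ b → b ≤ 1 → b - a < δ → Triv F a b) (hp : Continuous p)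
    (hp' : Continuous p') (hpF : ∀ s ∈ Icc (0 : ℝ) 1, p s ∈ F s)
    (hpF' : ∀ s ∈ Icc (0 : ℝ) 1, p' s ∈ F s) : Lifts F p p' 0 1 := by
  obtain ⟨N, hN⟩ := exists_nat_gt (1 / δ)
  have hN0 : (0 : ℝ) < N := lt_trans (by positivity) hN
  have key : ∀ k : ℕ, k ≤ N → Lifts F p p' 0 (k / N) := by
    intro k
    induction k with
    | zero =>
      intro _
      have h0 : ((0 : ℕ) : ℝ) / N = 0 := by simp
      rw [h0]
      exact (h 0 0 le_rfl le_rfl zero_le_one (by simpa using hδ)).lifts le_rfl hp hp'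
        (fun s hs => hpF s ⟨hs.1, hs.2.trans zero_le_one⟩)
        (fun s hs => hpF' s ⟨hs.1, hs.2.trans zero_le_one⟩)
    | succ k ih =>
      intro hk
      have h1 : (0 : ℝ) ≤ k / N := by positivity
      have h2 : (k : ℝ) / N ≤ (k + 1 : ℕ) / N := by
        push_cast
        gcongr
        linarith
      have h3 : ((k + 1 : ℕ) : ℝ) / N ≤ 1 := by
        rw [div_le_one hN0]
        exact_mod_cast hk
      refine (ih (by omega)).trans h1 ?_
      refine (h _ _ h1 h2 h3 ?_).lifts h2 hp hp' (fun s hs => hpF s ⟨h1.trans hs.1, hs.2.trans h3⟩)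
        (fun s hs => hpF' s ⟨h1.trans hs.1, hs.2.trans h3⟩)
      push_cast
      rw [← sub_div, show (k : ℝ) + 1 - k = 1 by ring, div_lt_iff₀ hN0]
      rw [div_lt_iff₀ hδ] at hN
      linarith
  have h1 := key N le_rfl
  rwa [div_self hN0.ne'] at h1

end Pool.Agent.X325.EC
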