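import Mathlib
import Pool.Agent.X325.EC.Trans

/-! An isotopy of the plane which moves finitely many points, and its lift to the double cover. -/

set_option autoImplicit false

open Topology Set unitInterval

namespace Pool.Agent.X325.EC

section sq

/-- a square root -/
noncomputable def sq (z : ℂ) : ℂ := z ^ ((2 : ℕ) : ℂ)⁻¹

theorem sq_sq (z : ℂ) : sq z ^ 2 = z := Complex.cpow_nat_inv_pow z two_ne_zero

theorem norm_sq_sq (z : ℂ) : ‖sq z‖ ^ 2 = ‖z‖ := by rw [← norm_pow, sq_sq]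

theorem sq_ne_zero {z : ℂ} (h : z ≠ 0) : sq z ≠ 0 := by
  intro h0
  apply h
  rw [← sq_sq z, h0]
  simp

theorem sq_zero : sq 0 = 0 := by
  have := sq_sq 0
  exact pow_eq_zero_iff (two_ne_zero) |>.mp this

theorem sq_one : sq 1 = 1 := by
  unfold sq
  simp

theorem continuousAt_sq {z : ℂ} (h : 0 < z.re) : ContinuousAt sq z :=
  continuousAt_id.cpow continuousAt_const (Complex.mem_slitPlane_iff.mpr (Or.inl h))

theorem norm_sq_le {z : ℂ} (h : ‖z‖ ≤ 3 / 2) : ‖sq z‖ ≤ 2 := by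
  have h1 := norm_sq_sq z
  nlinarith [norm_nonneg (sq z)]

theorem le_norm_sq {z : ℂ} (h : 1 / 2 ≤ ‖z‖) : 1 / 2 ≤ ‖sq z‖ := by
  have h1 := norm_sq_sq z
  nlinarith [norm_nonneg (sq z)]

end sq

section isotopy

variable {m : ℕ} {ρ : ℝ} {e₀ e e' : Fin m → ℂ}

/-- a cone function -/
noncomputable def cone (ρ : ℝ) (c x : ℂ) : ℝ := max 0 (1 - ‖x - c‖ / ρ)

theorem cone_nonneg (ρ : ℝ) (c x : ℂ) : 0 ≤ cone ρ c x := le_max_left _ _

theorem cone_le (hρ : 0 < ρ) (c x : ℂ) : cone ρ c x ≤ 1 :=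
  max_le zero_le_one (by have : 0 ≤ ‖x - c‖ / ρ := by positivity
                         linarith)

theorem cone_self (ρ : ℝ) (c : ℂ) : cone ρ c c = 1 := by simp [cone]

theorem cone_far (hρ : 0 < ρ) {c x : ℂ} (h : ρ ≤ ‖x - c‖) : cone ρ c x = 0 := by
  have h1 : 1 ≤ ‖x - c‖ / ρ := (one_le_div hρ).mpr h
  exact max_eq_left (by linarith)

theorem cone_lip (hρ : 0 < ρ) (c x x' : ℂ) : |cone ρ c x - cone ρ c x'| ≤ ‖x - x'‖ / ρ := by
  have h1 : |cone ρ c x - cone ρ c x'| ≤ |(1 - ‖x - c‖ / ρ) - (1 - ‖x' - c‖ / ρ)| :=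
    abs_max_sub_max_le_abs _ _ _ |> fun h => by
      unfold cone
      rw [max_comm 0, max_comm 0]
      exact h
  refine h1.trans ?_
  rw [show (1 - ‖x - c‖ / ρ) - (1 - ‖x' - c‖ / ρ) = (‖x' - c‖ - ‖x - c‖) / ρ by ring, abs_div,
    abs_of_pos hρ]
  gcongr
  refine (abs_norm_sub_norm_le _ _).trans_eq ?_
  rw [show x' - c - (x - c) = -(x - x') by ring, norm_neg]

theorem continuous_cone (ρ : ℝ) (c : ℂ) : Continuous (cone ρ c) := by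
  unfold cone
  fun_prop

/-- the displacement -/
noncomputable def gg (ρ : ℝ) (e₀ e : Fin m → ℂ) (x : ℂ) : ℂ :=
  ∑ i, (cone ρ (e₀ i) x : ℂ) * (e i - e₀ i)

/-- the isotopy -/
noncomputable def hh (ρ : ℝ) (e₀ e : Fin m → ℂ) (x : ℂ) : ℂ := x + gg ρ e₀ e x

/-- the points `e` are close to the points `e₀` -/
def Near (ρ : ℝ) (e₀ e : Fin m → ℂ) : Prop := ∑ i, ‖e i - e₀ i‖ ≤ ρ / 2

theorem gg_lip (hρ : 0 < ρ) (h : Near ρ e₀ e) (x x' : ℂ) :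
    ‖gg ρ e₀ e x - gg ρ e₀ e x'‖ ≤ 1 / 2 * ‖x - x'‖ := by
  unfold gg
  rw [← Finset.sum_sub_distrib]
  refine (norm_sum_le _ _).trans ?_
  have h1 : ∀ i, ‖(cone ρ (e₀ i) x : ℂ) * (e i - e₀ i) - (cone ρ (e₀ i) x' : ℂ) * (e i - e₀ i)‖ ≤
      ‖x - x'‖ / ρ * ‖e i - e₀ i‖ := by
    intro i
    rw [← sub_mul, norm_mul]
    refine mul_le_mul_of_nonneg_right ?_ (norm_nonneg _)
    rw [← Complex.ofReal_sub, Complex.norm_real]
    exact cone_lip hρ _ _ _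
  refine (Finset.sum_le_sum (fun i _ => h1 i)).trans ?_
  rw [← Finset.mul_sum]
  unfold Near at h
  have h2 : 0 ≤ ‖x - x'‖ / ρ := by positivity
  calc ‖x - x'‖ / ρ * ∑ i, ‖e i - e₀ i‖ ≤ ‖x - x'‖ / ρ * (ρ / 2) :=
        mul_le_mul_of_nonneg_left h h2
    _ = 1 / 2 * ‖x - x'‖ := by field_simp

theorem hh_anti (hρ : 0 < ρ) (h : Near ρ e₀ e) (x x' : ℂ) :
    ‖x - x'‖ ≤ 2 * ‖hh ρ e₀ e x - hh ρ e₀ e x'‖ := by
  have h1 := gg_lip hρ h x x'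
  have h2 : x - x' = (hh ρ e₀ e x - hh ρ e₀ e x') - (gg ρ e₀ e x - gg ρ e₀ e x') := by
    unfold hh
    ring
  have h3 := norm_sub_le (hh ρ e₀ e x - hh ρ e₀ e x') (gg ρ e₀ e x - gg ρ e₀ e x')
  rw [← h2] at h3
  linarith

theorem hh_surj (hρ : 0 < ρ) (h : Near ρ e₀ e) (y : ℂ) : ∃ x, hh ρ e₀ e x = y := by
  have hK : ContractingWith (1 / 2 : NNReal) (fun x => y - gg ρ e₀ e x) := by
    refine ⟨by
      rw [← NNReal.coe_lt_coe]
      push_cast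
      norm_num, ?_⟩
    refine LipschitzWith.of_dist_le_mul (fun x x' => ?_)
    rw [dist_eq_norm, dist_eq_norm, show y - gg ρ e₀ e x - (y - gg ρ e₀ e x') =
      -(gg ρ e₀ e x - gg ρ e₀ e x') by ring, norm_neg]
    push_cast
    exact gg_lip hρ h x x'
  refine ⟨hK.fixedPoint, ?_⟩
  have h1 : y - gg ρ e₀ e hK.fixedPoint = hK.fixedPoint := hK.fixedPoint_isFixedPt
  unfold hh
  linear_combination -h1

/-- the inverse of the isotopy -/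
noncomputable def hinv (ρ : ℝ) (e₀ e : Fin m → ℂ) (y : ℂ) : ℂ :=
  Classical.epsilon (fun x => hh ρ e₀ e x = y)

theorem hh_hinv (hρ : 0 < ρ) (h : Near ρ e₀ e) (y : ℂ) : hh ρ e₀ e (hinv ρ e₀ e y) = y :=
  Classical.epsilon_spec (hh_surj hρ h y)

theorem hinv_lip (hρ : 0 < ρ) (h : Near ρ e₀ e) (h' : Near ρ e₀ e') (y y' : ℂ) :
    ‖hinv ρ e₀ e y - hinv ρ e₀ e' y'‖ ≤ 2 * (‖y - y'‖ + ∑ i, ‖e i - e' i‖) := by
  refine (hh_anti hρ h _ _).trans ?_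
  rw [hh_hinv hρ h]
  gcongr
  have h1 := hh_hinv hρ h' y'
  set z := hinv ρ e₀ e' y'
  have h2 : y - hh ρ e₀ e z = (y - y') - ∑ i, (cone ρ (e₀ i) z : ℂ) * (e i - e' i) := by
    rw [← h1]
    unfold hh gg
    rw [show (∑ i, (cone ρ (e₀ i) z : ℂ) * (e i - e' i)) =
      (∑ i, (cone ρ (e₀ i) z : ℂ) * (e i - e₀ i)) - ∑ i, (cone ρ (e₀ i) z : ℂ) * (e' i - e₀ i) by
        rw [← Finset.sum_sub_distrib]
        exact Finset.sum_congr rfl (fun i _ => by ring)]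
    ring
  rw [h2]
  refine (norm_sub_le _ _).trans ?_
  gcongr
  refine (norm_sum_le _ _).trans (Finset.sum_le_sum (fun i _ => ?_))
  rw [norm_mul, Complex.norm_real, Real.norm_of_nonneg (cone_nonneg _ _ _)]
  exact mul_le_of_le_one_left (norm_nonneg _) (cone_le hρ _ _)

/-- the points `e₀` have distances at least `ρ` -/
def Sep (ρ : ℝ) (e₀ : Fin m → ℂ) : Prop := ∀ i j, i ≠ j → ρ ≤ ‖e₀ i - e₀ j‖

theorem hh_point (hρ : 0 < ρ) (hs : Sep ρ e₀) (e : Fin m → ℂ) (j : Fin m) :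
    hh ρ e₀ e (e₀ j) = e j := by
  classical
  unfold hh gg
  rw [Finset.sum_eq_single j (fun i _ hij => by
    rw [cone_far hρ (hs j i (Ne.symm hij)), Complex.ofReal_zero, zero_mul])
    (fun h => absurd (Finset.mem_univ _) h), cone_self, Complex.ofReal_one, one_mul]
  ring

theorem hh_self (ρ : ℝ) (e₀ : Fin m → ℂ) (x : ℂ) : hh ρ e₀ e₀ x = x := by
  unfold hh gg
  simp

theorem near_self (hρ : 0 < ρ) (e₀ : Fin m → ℂ) : Near ρ e₀ e₀ := by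
  unfold Near
  simp
  positivity

theorem hinv_self (hρ : 0 < ρ) (e₀ : Fin m → ℂ) (x : ℂ) : hinv ρ e₀ e₀ x = x := by
  have h := hh_hinv hρ (near_self hρ e₀) x
  rwa [hh_self] at h

/-- the factors -/
noncomputable def ff (ρ : ℝ) (e₀ e : Fin m → ℂ) (x : ℂ) (i : Fin m) : ℂ :=
  (hh ρ e₀ e x - e i) / (x - e₀ i)

theorem ff_mul (hρ : 0 < ρ) (hs : Sep ρ e₀) (e : Fin m → ℂ) (x : ℂ) (i : Fin m) :
    (x - e₀ i) * ff ρ e₀ e x i = hh ρ e₀ e x - e i := by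
  unfold ff
  by_cases h : x - e₀ i = 0
  · have h1 : x = e₀ i := sub_eq_zero.mp h
    rw [h1, hh_point hρ hs, sub_self, zero_mul, sub_self]
  · field_simp

theorem ff_near (hρ : 0 < ρ) (hs : Sep ρ e₀) (h : Near ρ e₀ e) {x : ℂ} {i : Fin m}
    (hx : x ≠ e₀ i) : ‖ff ρ e₀ e x i - 1‖ ≤ 1 / 2 := by
  have h0 : x - e₀ i ≠ 0 := sub_ne_zero.mpr hx
  have h1 : ff ρ e₀ e x i - 1 = (gg ρ e₀ e x - gg ρ e₀ e (e₀ i)) / (x - e₀ i) := by
    unfold ff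
    rw [← hh_point hρ hs e i]
    unfold hh
    field_simp
    ring
  rw [h1, norm_div, div_le_iff₀ (norm_pos_iff.mpr h0)]
  exact gg_lip hρ h _ _

theorem ff_re (hρ : 0 < ρ) (hs : Sep ρ e₀) (h : Near ρ e₀ e) {x : ℂ} {i : Fin m}
    (hx : x ≠ e₀ i) : 0 < (ff ρ e₀ e x i).re := by
  have h1 := (Complex.abs_re_le_norm (ff ρ e₀ e x i - 1)).trans (ff_near hρ hs h hx)
  rw [Complex.sub_re, Complex.one_re] at h1
  have := (abs_le.mp h1).1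
  linarith

theorem ff_norm_le (hρ : 0 < ρ) (hs : Sep ρ e₀) (h : Near ρ e₀ e) (x : ℂ) (i : Fin m) :
    ‖ff ρ e₀ e x i‖ ≤ 3 / 2 := by
  by_cases hx : x = e₀ i
  · unfold ff
    rw [hx, sub_self, div_zero, norm_zero]
    norm_num
  · have h1 := ff_near hρ hs h hx
    have h2 := norm_add_le (ff ρ e₀ e x i - 1) 1
    rw [sub_add_cancel, norm_one] at h2
    linarith

theorem ff_le_norm (hρ : 0 < ρ) (hs : Sep ρ e₀) (h : Near ρ e₀ e) {x : ℂ} {i : Fin m}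
    (hx : x ≠ e₀ i) : 1 / 2 ≤ ‖ff ρ e₀ e x i‖ := by
  have h1 := ff_near hρ hs h hx
  have h2 := norm_sub_norm_le (1 : ℂ) (1 - ff ρ e₀ e x i)
  rw [sub_sub_cancel, norm_one, norm_sub_rev] at h2
  linarith

/-- the square root of the quotient -/
noncomputable def RR (ρ : ℝ) (e₀ e : Fin m → ℂ) (x : ℂ) : ℂ := ∏ i, sq (ff ρ e₀ e x i)

theorem RR_sq (ρ : ℝ) (e₀ e : Fin m → ℂ) (x : ℂ) : RR ρ e₀ e x ^ 2 = ∏ i, ff ρ e₀ e x i := by
  unfold RR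
  rw [← Finset.prod_pow]
  exact Finset.prod_congr rfl (fun i _ => sq_sq _)

theorem RR_prod (hρ : 0 < ρ) (hs : Sep ρ e₀) (e : Fin m → ℂ) (x : ℂ) :
    (∏ i, (x - e₀ i)) * RR ρ e₀ e x ^ 2 = ∏ i, (hh ρ e₀ e x - e i) := by
  rw [RR_sq, ← Finset.prod_mul_distrib]
  exact Finset.prod_congr rfl (fun i _ => ff_mul hρ hs e x i)

theorem RR_norm_le (hρ : 0 < ρ) (hs : Sep ρ e₀) (h : Near ρ e₀ e) (x : ℂ) :
    ‖RR ρ e₀ e x‖ ≤ 2 ^ m := by
  unfold RR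
  rw [norm_prod]
  calc ∏ i, ‖sq (ff ρ e₀ e x i)‖ ≤ ∏ _i : Fin m, (2 : ℝ) :=
        Finset.prod_le_prod (fun i _ => norm_nonneg _)
          (fun i _ => norm_sq_le (ff_norm_le hρ hs h x i))
    _ = 2 ^ m := by simp

theorem RR_le_norm (hρ : 0 < ρ) (hs : Sep ρ e₀) (h : Near ρ e₀ e) {x : ℂ}
    (hx : ∀ i, x ≠ e₀ i) : (1 / 2) ^ m ≤ ‖RR ρ e₀ e x‖ := by
  unfold RR
  rw [norm_prod]
  calc (1 / 2 : ℝ) ^ m = ∏ _i : Fin m, (1 / 2 : ℝ) := by simp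
    _ ≤ ∏ i, ‖sq (ff ρ e₀ e x i)‖ :=
        Finset.prod_le_prod (fun i _ => by norm_num)
          (fun i _ => le_norm_sq (ff_le_norm hρ hs h (hx i)))

theorem RR_ne_zero (hρ : 0 < ρ) (hs : Sep ρ e₀) (h : Near ρ e₀ e) {x : ℂ}
    (hx : ∀ i, x ≠ e₀ i) : RR ρ e₀ e x ≠ 0 := by
  intro h0
  have h1 := RR_le_norm hρ hs h hx
  rw [h0, norm_zero] at h1
  have : (0 : ℝ) < (1 / 2) ^ m := by positivity
  linarith

end isotopy

end Pool.Agent.X325.EC
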