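import Mathlib
import Pool.Agent.X325.EC.Iso

/-! Local triviality of the family of the double covers of the plane. -/

set_option autoImplicit false

open Topology Set unitInterval Filter

namespace Pool.Agent.X325.EC

/-- a product is continuous if one factor is continuous and the other one is continuous outside the
zeros of the first one and bounded -/
theorem cont_mul {T : Type*} [TopologicalSpace T] {D : Set T} {A B : T → ℂ}
    (hA : ContinuousOn A D) (M : ℝ) (hM : ∀ t ∈ D, ‖A t * B t‖ ≤ M * ‖A t‖)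
    (hB : ∀ t ∈ D, A t ≠ 0 → ContinuousWithinAt B D t) :
    ContinuousOn (fun t => A t * B t) D := by
  intro t₀ ht₀
  by_cases h : A t₀ = 0
  · show Tendsto (fun t => A t * B t) (𝓝[D] t₀) (𝓝 (A t₀ * B t₀))
    rw [h, zero_mul]
    refine squeeze_zero_norm' (a := fun t => M * ‖A t‖) ?_ ?_
    · exact eventually_nhdsWithin_of_forall hM
    · have h1 : Tendsto A (𝓝[D] t₀) (𝓝 (A t₀)) := hA t₀ ht₀
      have h2 := (h1.norm).const_mul M
      rwa [h, norm_zero, mul_zero] at h2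
  · exact (hA t₀ ht₀).mul (hB t₀ ht₀ h)

section

variable {m : ℕ} {ρ : ℝ}

/-- the double cover of the plane branched at the points `e i` -/
def DC (e : Fin m → ℂ) : Set (ℂ × ℂ) := {w | w.2 ^ 2 = ∏ i, (w.1 - e i)}

theorem ne_of_ne_zero {e : Fin m → ℂ} {w : ℂ × ℂ} (hw : w ∈ DC e) (h : w.2 ≠ 0) (i : Fin m) :
    w.1 ≠ e i := by
  intro h1
  apply h
  have h2 : w.2 ^ 2 = ∏ i, (w.1 - e i) := hw
  rw [Finset.prod_eq_zero (Finset.mem_univ i) (by rw [h1, sub_self])] at h2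
  exact pow_eq_zero_iff (two_ne_zero) |>.mp h2

theorem eq_zero_of_RR {e₀ e : Fin m → ℂ} (hρ : 0 < ρ) (hs : Sep ρ e₀) (h : Near ρ e₀ e)
    {x : ℂ} (hR : RR ρ e₀ e x = 0) : ∃ i, x = e₀ i := by
  by_contra h0
  push Not at h0
  exact RR_ne_zero hρ hs h h0 hR

/-- the map between the fibres -/
noncomputable def PP (ρ : ℝ) (e₀ e : Fin m → ℂ) (w : ℂ × ℂ) : ℂ × ℂ :=
  (hh ρ e₀ e w.1, w.2 * RR ρ e₀ e w.1)

/-- the inverse map -/
noncomputable def QQ (ρ : ℝ) (e₀ e : Fin m → ℂ) (w : ℂ × ℂ) : ℂ × ℂ :=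
  (hinv ρ e₀ e w.1, w.2 * (RR ρ e₀ e (hinv ρ e₀ e w.1))⁻¹)

theorem PP_mem {e₀ e : Fin m → ℂ} (hρ : 0 < ρ) (hs : Sep ρ e₀) {w : ℂ × ℂ} (hw : w ∈ DC e₀) :
    PP ρ e₀ e w ∈ DC e := by
  show (w.2 * RR ρ e₀ e w.1) ^ 2 = ∏ i, (hh ρ e₀ e w.1 - e i)
  rw [mul_pow, ← RR_prod hρ hs e w.1]
  congr 1

theorem QQ_mem {e₀ e : Fin m → ℂ} (hρ : 0 < ρ) (hs : Sep ρ e₀) (h : Near ρ e₀ e) {w : ℂ × ℂ}
    (hw : w ∈ DC e) : QQ ρ e₀ e w ∈ DC e₀ := by
  show (w.2 * (RR ρ e₀ e (hinv ρ e₀ e w.1))⁻¹) ^ 2 = ∏ i, (hinv ρ e₀ e w.1 - e₀ i)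
  have h1 := RR_prod hρ hs e (hinv ρ e₀ e w.1)
  rw [hh_hinv hρ h] at h1
  have h2 : w.2 ^ 2 = ∏ i, (w.1 - e i) := hw
  rw [mul_pow, h2, ← h1]
  by_cases hR : RR ρ e₀ e (hinv ρ e₀ e w.1) = 0
  · obtain ⟨i, hi⟩ := eq_zero_of_RR hρ hs h hR
    rw [Finset.prod_eq_zero (Finset.mem_univ i) (by rw [hi, sub_self]), zero_mul, zero_mul]
  · rw [inv_pow, mul_assoc, mul_inv_cancel₀ (pow_ne_zero 2 hR), mul_one]

theorem PP_QQ {e₀ e : Fin m → ℂ} (hρ : 0 < ρ) (hs : Sep ρ e₀) (h : Near ρ e₀ e) {w : ℂ × ℂ}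
    (hw : w ∈ DC e) : PP ρ e₀ e (QQ ρ e₀ e w) = w := by
  refine Prod.ext (hh_hinv hρ h w.1) ?_
  show w.2 * (RR ρ e₀ e (hinv ρ e₀ e w.1))⁻¹ * RR ρ e₀ e (hinv ρ e₀ e w.1) = w.2
  by_cases hR : RR ρ e₀ e (hinv ρ e₀ e w.1) = 0
  · obtain ⟨i, hi⟩ := eq_zero_of_RR hρ hs h hR
    have h1 : w.1 = e i := by rw [← hh_hinv hρ h w.1, hi, hh_point hρ hs]
    by_contra h2
    refine ne_of_ne_zero hw (fun h3 => h2 ?_) i h1
    rw [h3, zero_mul, zero_mul]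
  · rw [mul_assoc, inv_mul_cancel₀ hR, mul_one]

theorem RR_self {e₀ : Fin m → ℂ} {x : ℂ} (hx : ∀ i, x ≠ e₀ i) : RR ρ e₀ e₀ x = 1 := by
  unfold RR ff
  refine Finset.prod_eq_one (fun i _ => ?_)
  rw [hh_self, div_self (sub_ne_zero.mpr (hx i)), sq_one]

theorem PP_self {e₀ : Fin m → ℂ} {w : ℂ × ℂ} (hw : w ∈ DC e₀) : PP ρ e₀ e₀ w = w := by
  refine Prod.ext (hh_self _ _ _) ?_
  show w.2 * RR ρ e₀ e₀ w.1 = w.2
  by_cases h : w.2 = 0
  · rw [h, zero_mul]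
  · rw [RR_self (ne_of_ne_zero hw h), mul_one]

theorem QQ_self {e₀ : Fin m → ℂ} (hρ : 0 < ρ) {w : ℂ × ℂ} (hw : w ∈ DC e₀) :
    QQ ρ e₀ e₀ w = w := by
  refine Prod.ext (hinv_self hρ _ _) ?_
  show w.2 * (RR ρ e₀ e₀ (hinv ρ e₀ e₀ w.1))⁻¹ = w.2
  rw [hinv_self hρ]
  by_cases h : w.2 = 0
  · rw [h, zero_mul]
  · rw [RR_self (ne_of_ne_zero hw h), inv_one, mul_one]

theorem continuousWithinAt_hh {T : Type*} [TopologicalSpace T] {D : Set T} {t₀ : T}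
    {e₀ : Fin m → ℂ} {e : T → Fin m → ℂ} {x : T → ℂ} (he : ContinuousWithinAt e D t₀)
    (hx : ContinuousWithinAt x D t₀) :
    ContinuousWithinAt (fun t => hh ρ e₀ (e t) (x t)) D t₀ := by
  unfold hh gg
  refine hx.add ?_
  refine tendsto_finsetSum _ (fun i _ => ?_)
  refine Tendsto.mul ?_ (Tendsto.sub ?_ tendsto_const_nhds)
  · exact (Complex.continuous_ofReal.continuousAt.comp_continuousWithinAt
      ((continuous_cone ρ (e₀ i)).continuousAt.comp_continuousWithinAt hx))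
  · exact (continuous_apply i).continuousAt.comp_continuousWithinAt he

theorem continuousWithinAt_RR {T : Type*} [TopologicalSpace T] {D : Set T} {t₀ : T}
    {e₀ : Fin m → ℂ} {e : T → Fin m → ℂ} {x : T → ℂ} (hρ : 0 < ρ) (hs : Sep ρ e₀)
    (h : Near ρ e₀ (e t₀)) (he : ContinuousWithinAt e D t₀)
    (hx : ContinuousWithinAt x D t₀) (hne : ∀ i, x t₀ ≠ e₀ i) :
    ContinuousWithinAt (fun t => RR ρ e₀ (e t) (x t)) D t₀ := by
  unfold RR
  refine tendsto_finsetProd _ (fun i _ => ?_)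
  refine (continuousAt_sq (ff_re hρ hs h (hne i))).tendsto.comp ?_
  unfold ff
  refine Tendsto.div ?_ (Tendsto.sub hx tendsto_const_nhds) (sub_ne_zero.mpr (hne i))
  exact Tendsto.sub (continuousWithinAt_hh he hx)
    ((continuous_apply i).continuousAt.comp_continuousWithinAt he)

theorem continuousWithinAt_hinv {T : Type*} [TopologicalSpace T] {D : Set T} {t₀ : T}
    {e₀ : Fin m → ℂ} {e : T → Fin m → ℂ} {x : T → ℂ} (hρ : 0 < ρ)
    (h : ∀ t ∈ D, Near ρ e₀ (e t)) (ht₀ : t₀ ∈ D) (he : ContinuousWithinAt e D t₀)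
    (hx : ContinuousWithinAt x D t₀) :
    ContinuousWithinAt (fun t => hinv ρ e₀ (e t) (x t)) D t₀ := by
  show Tendsto (fun t => hinv ρ e₀ (e t) (x t)) (𝓝[D] t₀) (𝓝 (hinv ρ e₀ (e t₀) (x t₀)))
  rw [tendsto_iff_norm_sub_tendsto_zero]
  refine squeeze_zero' (g := fun t => 2 * (‖x t - x t₀‖ + ∑ i, ‖e t i - e t₀ i‖))
    (Eventually.of_forall (fun t => norm_nonneg _)) ?_ ?_
  · exact eventually_nhdsWithin_of_forall (fun t ht => hinv_lip hρ (h t ht) (h t₀ ht₀) _ _)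
  · have h1 : Tendsto (fun t => ‖x t - x t₀‖) (𝓝[D] t₀) (𝓝 0) :=
      tendsto_iff_norm_sub_tendsto_zero.mp hx
    have h2 : ∀ i ∈ Finset.univ, Tendsto (fun t => ‖e t i - e t₀ i‖) (𝓝[D] t₀) (𝓝 0) :=
      fun i _ => tendsto_iff_norm_sub_tendsto_zero.mp
        ((continuous_apply i).continuousAt.comp_continuousWithinAt he)
    have h3 := (h1.add (tendsto_finsetSum _ h2)).const_mul 2
    simpa using h3

theorem triv_DC {e : ℝ → Fin m → ℂ} (he : Continuous e) {a b : ℝ} (hρ : 0 < ρ)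
    (hs : Sep ρ (e a)) (h : ∀ s ∈ Icc a b, Near ρ (e a) (e s)) :
    Triv (fun s => DC (e s)) a b := by
  refine ⟨fun x => PP ρ (e a) (e x.1) x.2, fun x => QQ ρ (e a) (e x.1) x.2, ?_, ?_,
    fun s _ w hw => PP_mem hρ hs hw,
    fun s hs' w hw => ⟨QQ_mem hρ hs (h s hs') hw, PP_QQ hρ hs (h s hs') hw⟩,
    fun w hw => ⟨PP_self hw, QQ_self hρ hw⟩⟩
  · refine ContinuousOn.prodMk ?_ ?_
    · intro t₀ _
      exact continuousWithinAt_hh (he.comp continuous_fst).continuousWithinAt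
        (continuous_fst.comp continuous_snd).continuousWithinAt
    · refine cont_mul (A := fun x : ℝ × (ℂ × ℂ) => x.2.2) (by fun_prop) (2 ^ m) ?_ ?_
      · rintro ⟨s, w⟩ ⟨hs', hw⟩
        rw [norm_mul, mul_comm]
        exact mul_le_mul_of_nonneg_right (RR_norm_le hρ hs (h s hs') w.1) (norm_nonneg _)
      · rintro ⟨s, w⟩ ⟨hs', hw⟩ h0
        exact continuousWithinAt_RR hρ hs (h s hs') (he.comp continuous_fst).continuousWithinAt
          (continuous_fst.comp continuous_snd).continuousWithinAt (ne_of_ne_zero hw h0)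
  · have hz : ∀ t₀ ∈ {x : ℝ × (ℂ × ℂ) | x.1 ∈ Icc a b ∧ x.2 ∈ DC (e x.1)}, ContinuousWithinAt
        (fun x : ℝ × (ℂ × ℂ) => hinv ρ (e a) (e x.1) x.2.1)
        {x : ℝ × (ℂ × ℂ) | x.1 ∈ Icc a b ∧ x.2 ∈ DC (e x.1)} t₀ := by
      intro t₀ ht₀
      exact continuousWithinAt_hinv hρ (fun t ht => h t.1 ht.1) ht₀
        (he.comp continuous_fst).continuousWithinAt
        (continuous_fst.comp continuous_snd).continuousWithinAt
    have hne : ∀ s ∈ Icc a b, ∀ w ∈ DC (e s), w.2 ≠ 0 → ∀ i, hinv ρ (e a) (e s) w.1 ≠ e a i := by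
      intro s hs' w hw h0 i h1
      refine ne_of_ne_zero hw h0 i ?_
      rw [← hh_hinv hρ (h s hs') w.1, h1, hh_point hρ hs]
    refine ContinuousOn.prodMk hz ?_
    refine cont_mul (A := fun x : ℝ × (ℂ × ℂ) => x.2.2) (by fun_prop) (2 ^ m) ?_ ?_
    · rintro ⟨s, w⟩ ⟨hs', hw⟩
      by_cases h0 : w.2 = 0
      · show ‖w.2 * _‖ ≤ _ * ‖w.2‖
        rw [h0, zero_mul, norm_zero, mul_zero]
      · rw [norm_mul, mul_comm]
        refine mul_le_mul_of_nonneg_right ?_ (norm_nonneg _)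
        have h1 := RR_le_norm hρ hs (h s hs') (hne s hs' w hw h0)
        rw [norm_inv]
        refine (inv_anti₀ (by positivity) h1).trans ?_
        rw [one_div, inv_pow, inv_inv]
    · rintro ⟨s, w⟩ ⟨hs', hw⟩ h0
      have hx := hne s hs' w hw h0
      refine Tendsto.inv₀ ?_ (RR_ne_zero hρ hs (h s hs') hx)
      exact continuousWithinAt_RR hρ hs (h s hs') (he.comp continuous_fst).continuousWithinAt
        (hz (s, w) ⟨hs', hw⟩) hx

theorem exists_sep {e : ℝ → Fin m → ℂ} (he : Continuous e)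
    (hi : ∀ s ∈ Icc (0 : ℝ) 1, Function.Injective (e s)) :
    ∃ ρ > 0, ∀ s ∈ Icc (0 : ℝ) 1, Sep ρ (e s) := by
  classical
  have h1 : ∀ x : Fin m × Fin m, ∃ ρ > 0, ∀ s ∈ Icc (0 : ℝ) 1, x.1 ≠ x.2 →
      ρ ≤ ‖e s x.1 - e s x.2‖ := by
    rintro ⟨i, j⟩
    by_cases hij : i = j
    · exact ⟨1, one_pos, fun s _ h => absurd hij h⟩
    · obtain ⟨s₀, hs₀, hm⟩ := (isCompact_Icc (a := (0 : ℝ)) (b := 1)).exists_isMinOn
        ⟨0, ⟨le_rfl, zero_le_one⟩⟩ (f := fun s => ‖e s i - e s j‖)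
        (((continuous_apply i).comp he).sub ((continuous_apply j).comp he)).norm.continuousOn
      refine ⟨‖e s₀ i - e s₀ j‖, norm_pos_iff.mpr (sub_ne_zero.mpr
        (fun h => hij (hi s₀ hs₀ h))), fun s hs _ => hm hs⟩
  choose r hr hr' using h1
  rcases isEmpty_or_nonempty (Fin m × Fin m) with hE | hE
  · exact ⟨1, one_pos, fun s _ i j _ => (hE.false (i, j)).elim⟩
  · obtain ⟨x₀, hx₀⟩ := Finite.exists_min r
    exact ⟨r x₀, hr x₀, fun s hs i j hij => (hx₀ (i, j)).trans (hr' (i, j) s hs hij)⟩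

theorem exists_near {e : ℝ → Fin m → ℂ} (he : Continuous e) (hρ : 0 < ρ) :
    ∃ δ > 0, ∀ s ∈ Icc (0 : ℝ) 1, ∀ t ∈ Icc (0 : ℝ) 1, |t - s| < δ → Near ρ (e s) (e t) := by
  have h1 := isCompact_Icc (a := (0 : ℝ)) (b := 1) |>.uniformContinuousOn_of_continuous
    he.continuousOn
  rw [Metric.uniformContinuousOn_iff] at h1
  obtain ⟨δ, hδ, h2⟩ := h1 (ρ / (2 * (m + 1))) (by positivity)
  refine ⟨δ, hδ, fun s hs t ht hst => ?_⟩
  have h3 := h2 t ht s hs (by rwa [Real.dist_eq])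
  unfold Near
  have h4 : ∀ i, ‖e t i - e s i‖ ≤ ρ / (2 * (m + 1)) := fun i => by
    rw [← dist_eq_norm]
    exact (dist_le_pi_dist (e t) (e s) i).trans h3.le
  refine (Finset.sum_le_sum (fun i _ => h4 i)).trans ?_
  rw [Finset.sum_const, Finset.card_univ, Fintype.card_fin, nsmul_eq_mul]
  rw [mul_div_assoc', div_le_div_iff₀ (by positivity) (by positivity)]
  nlinarith

/-- lifting of squares for the family of the double covers -/
theorem lifts_DC {e : ℝ → Fin m → ℂ} (he : Continuous e)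
    (hi : ∀ s ∈ Icc (0 : ℝ) 1, Function.Injective (e s)) {p p' : ℝ → ℂ × ℂ} (hp : Continuous p)
    (hp' : Continuous p') (hpF : ∀ s ∈ Icc (0 : ℝ) 1, p s ∈ DC (e s))
    (hpF' : ∀ s ∈ Icc (0 : ℝ) 1, p' s ∈ DC (e s)) : Lifts (fun s => DC (e s)) p p' 0 1 := by
  obtain ⟨ρ, hρ, hs⟩ := exists_sep he hi
  obtain ⟨δ, hδ, hn⟩ := exists_near he hρ
  refine lifts_of_triv hδ (fun a b ha hab hb hd => ?_) hp hp' hpF hpF'
  refine triv_DC he hρ (hs a ⟨ha, hab.trans hb⟩) (fun s hs' => ?_)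
  refine hn a ⟨ha, hab.trans hb⟩ s ⟨ha.trans hs'.1, hs'.2.trans hb⟩ ?_
  rw [abs_of_nonneg (by linarith [hs'.1])]
  linarith [hs'.2]

end

end Pool.Agent.X325.EC
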