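import Mathlib
import Pool.Agent.X325.EC.Cov
import Pool.Agent.X325.HS.Ext

/-! Homotopy lifting for the algebraic families of hyperelliptic affine curves, in particular for
the families of affine cubics `y² = (x - e₁)(x - e₂)(x - e₃)`. -/

set_option autoImplicit false

open Topology Set unitInterval Filter

namespace Pool.Agent.X325.EC

open Pool.Agent.X325.HS

theorem continuousAt_sq' {z : ℂ} (h : 0 ≤ z.re) : ContinuousAt sq z := by
  by_cases h0 : z = 0
  · subst h0
    show Tendsto sq (𝓝 0) (𝓝 (sq 0))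
    rw [sq_zero, tendsto_zero_iff_norm_tendsto_zero]
    have h1 : ∀ z : ℂ, ‖sq z‖ = Real.sqrt ‖z‖ := fun z => by
      rw [← norm_sq_sq z, Real.sqrt_sq (norm_nonneg _)]
    have h2 : Tendsto (fun z : ℂ => Real.sqrt ‖z‖) (𝓝 0) (𝓝 0) := by
      have : Continuous (fun z : ℂ => Real.sqrt ‖z‖) := by fun_prop
      have h3 := this.tendsto 0
      simpa using h3
    exact h2.congr (fun z => (h1 z).symm)
  · refine continuousAt_id.cpow continuousAt_const (Complex.mem_slitPlane_iff.mpr ?_)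
    by_contra h1
    push Not at h1
    exact h0 (Complex.ext (le_antisymm h1.1 h) h1.2)

/-- a continuous square root of a linear function of a real variable -/
theorem lin_sqrt (A B : ℂ) : ∃ S : ℝ → ℂ, Continuous S ∧ ∀ t : ℝ, S t ^ 2 = A + t * B := by
  by_cases hB : B = 0
  · exact ⟨fun _ => sq A, continuous_const, fun t => by rw [sq_sq, hB]; ring⟩
  · have hz : A = B * (((A / B).re : ℂ) + (A / B).im * Complex.I) := by
      rw [Complex.re_add_im]
      field_simp
    set p := (A / B).re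
    set q := (A / B).im
    have hI : Complex.I * Complex.I = -1 := Complex.I_mul_I
    by_cases hq : 0 ≤ q
    · refine ⟨fun t => sq (Complex.I * B) * sq ((q : ℂ) - Complex.I * ((t : ℂ) + p)), ?_, ?_⟩
      · refine continuous_const.mul (continuous_iff_continuousAt.mpr (fun t => ?_))
        have hc : Continuous (fun t : ℝ => (q : ℂ) - Complex.I * ((t : ℂ) + p)) := by fun_prop
        have h1 : 0 ≤ ((q : ℂ) - Complex.I * ((t : ℂ) + p)).re := by simp [hq]
        exact Tendsto.comp (continuousAt_sq' h1) (hc.tendsto t)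
      · intro t
        rw [mul_pow, sq_sq, sq_sq]
        linear_combination -hz - B * (t + p) * hI
    · refine ⟨fun t => sq (-Complex.I * B) * sq (-(q : ℂ) + Complex.I * ((t : ℂ) + p)), ?_, ?_⟩
      · refine continuous_const.mul (continuous_iff_continuousAt.mpr (fun t => ?_))
        have hc : Continuous (fun t : ℝ => -(q : ℂ) + Complex.I * ((t : ℂ) + p)) := by fun_prop
        have h1 : 0 ≤ (-(q : ℂ) + Complex.I * ((t : ℂ) + p)).re := by
          simp
          linarith
        exact Tendsto.comp (continuousAt_sq' h1) (hc.tendsto t)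
      · intro t
        rw [mul_pow, sq_sq, sq_sq]
        linear_combination -hz - B * (t + p) * hI

/-- the double cover of the plane is connected by paths -/
theorem isPathConnected_DC {m : ℕ} (hm : 0 < m) (e : Fin m → ℂ) : IsPathConnected (DC e) := by
  let i₀ : Fin m := ⟨0, hm⟩
  have h0 : ((e i₀, 0) : ℂ × ℂ) ∈ DC e := by
    show (0 : ℂ) ^ 2 = ∏ i, (e i₀ - e i)
    rw [Finset.prod_eq_zero (Finset.mem_univ i₀) (sub_self _)]
    ring
  refine ⟨_, h0, fun {w} hw => JoinedIn.symm ?_⟩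
  have hw' : w.2 ^ 2 = ∏ i, (w.1 - e i) := hw
  choose S hS hS' using fun i => lin_sqrt (w.1 - e i) (e i₀ - w.1)
  have hY : ∀ t : ℝ, (∏ i, S i t) ^ 2 = ∏ i, ((w.1 + t * (e i₀ - w.1)) - e i) := fun t => by
    rw [← Finset.prod_pow]
    refine Finset.prod_congr rfl (fun i _ => ?_)
    rw [hS' i t]
    ring
  have hYc : Continuous (fun t : ℝ => ∏ i, S i t) :=
    continuous_finsetProd _ (fun i _ => hS i)
  obtain ⟨ε, hε, hε'⟩ : ∃ ε : ℂ, ε ^ 2 = 1 ∧ ε * ∏ i, S i 0 = w.2 := by
    have h1 : w.2 ^ 2 = (∏ i, S i 0) ^ 2 := by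
      rw [hw', hY 0]
      refine Finset.prod_congr rfl (fun i _ => ?_)
      push_cast
      ring
    rcases sq_eq_sq_iff_eq_or_eq_neg.mp h1 with h2 | h2
    · exact ⟨1, by ring, by rw [h2]; ring⟩
    · exact ⟨-1, by ring, by rw [h2]; ring⟩
  have h1 : ∏ i, S i 1 = 0 := by
    have h2 := hY 1
    have h3 : ∏ i, ((w.1 + ((1 : ℝ) : ℂ) * (e i₀ - w.1)) - e i) = 0 :=
      Finset.prod_eq_zero (Finset.mem_univ i₀) (by push_cast; ring)
    rw [h3] at h2
    exact pow_eq_zero_iff two_ne_zero |>.mp h2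
  refine ⟨⟨⟨fun t => (w.1 + (t.1 : ℂ) * (e i₀ - w.1), ε * ∏ i, S i t.1), ?_⟩, ?_, ?_⟩, ?_⟩
  · refine Continuous.prodMk (by fun_prop) (continuous_const.mul
      (hYc.comp continuous_subtype_val))
  · refine Prod.ext ?_ ?_
    · show w.1 + ((0 : ℝ) : ℂ) * (e i₀ - w.1) = w.1
      push_cast
      ring
    · exact hε'
  · refine Prod.ext ?_ ?_
    · show w.1 + ((1 : ℝ) : ℂ) * (e i₀ - w.1) = e i₀
      push_cast
      ring
    · show ε * ∏ i, S i 1 = 0
      rw [h1, mul_zero]
  · intro t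
    show (ε * ∏ i, S i t.1) ^ 2 = ∏ i, ((w.1 + (t.1 : ℂ) * (e i₀ - w.1)) - e i)
    rw [mul_pow, hε, one_mul, hY]

section

variable {a m : ℕ}

/-- the family of the affine curves `y² = ∏ (x - e i (w))`, `w ∈ W` -/
def CubY (W : Set (Fin a → ℂ)) (e : Fin m → MvPolynomial (Fin a) ℂ) : Set (Fin (a + 2) → ℂ) :=
  {y | (fun j => y (Fin.castAdd 2 j)) ∈ W ∧
    y (Fin.natAdd a 1) ^ 2 =
      ∏ i, (y (Fin.natAdd a 0) - MvPolynomial.eval (fun j => y (Fin.castAdd 2 j)) (e i))}

/-- the parameters of the family -/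
noncomputable def CubPi (a : ℕ) : Fin a → MvPolynomial (Fin (a + 2)) ℂ :=
  fun j => MvPolynomial.X (Fin.castAdd 2 j)

theorem eval_CubPi (y : Fin (a + 2) → ℂ) (j : Fin a) :
    MvPolynomial.eval y (CubPi a j) = y (Fin.castAdd 2 j) := MvPolynomial.eval_X _

/-- a point with the parameters `w` and the coordinates `x`, `y` -/
def cpt (w : Fin a → ℂ) (z : ℂ × ℂ) : Fin (a + 2) → ℂ := Fin.append w ![z.1, z.2]

theorem cpt_left (w : Fin a → ℂ) (z : ℂ × ℂ) (j : Fin a) : cpt w z (Fin.castAdd 2 j) = w j :=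
  Fin.append_left _ _ _

theorem cpt_x (w : Fin a → ℂ) (z : ℂ × ℂ) : cpt w z (Fin.natAdd a 0) = z.1 :=
  Fin.append_right _ _ _

theorem cpt_y (w : Fin a → ℂ) (z : ℂ × ℂ) : cpt w z (Fin.natAdd a 1) = z.2 :=
  Fin.append_right _ _ _

theorem cpt_eq (y : Fin (a + 2) → ℂ) :
    cpt (fun j => y (Fin.castAdd 2 j)) (y (Fin.natAdd a 0), y (Fin.natAdd a 1)) = y := by
  funext j
  induction j using Fin.addCases with
  | left j => exact cpt_left _ _ _
  | right j =>
    rcases j with ⟨j, hj⟩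
    interval_cases j
    · exact cpt_x _ _
    · exact cpt_y _ _

theorem continuous_cpt {T : Type*} [TopologicalSpace T] {w : T → Fin a → ℂ} {z : T → ℂ × ℂ}
    (hw : Continuous w) (hz : Continuous z) : Continuous (fun t => cpt (w t) (z t)) := by
  refine continuous_pi (fun j => ?_)
  induction j using Fin.addCases with
  | left j =>
    simp only [cpt_left]
    exact (continuous_apply j).comp hw
  | right j =>
    rcases j with ⟨j, hj⟩
    interval_cases j
    · exact (continuous_fst.comp hz).congr (fun t => (cpt_x (w t) (z t)).symm)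
    · exact (continuous_snd.comp hz).congr (fun t => (cpt_y (w t) (z t)).symm)

variable {W : Set (Fin a → ℂ)} {e : Fin m → MvPolynomial (Fin a) ℂ}

/-- the branch points -/
noncomputable def brp (e : Fin m → MvPolynomial (Fin a) ℂ) (w : Fin a → ℂ) : Fin m → ℂ :=
  fun i => MvPolynomial.eval w (e i)

theorem mem_CubY_iff (y : Fin (a + 2) → ℂ) : y ∈ CubY W e ↔ (fun j => y (Fin.castAdd 2 j)) ∈ W ∧
    ((y (Fin.natAdd a 0), y (Fin.natAdd a 1)) : ℂ × ℂ) ∈
      DC (brp e (fun j => y (Fin.castAdd 2 j))) := Iff.rfl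

theorem cpt_mem (w : Fin a → ℂ) (z : ℂ × ℂ) : cpt w z ∈ CubY W e ↔ w ∈ W ∧ z ∈ DC (brp e w) := by
  rw [mem_CubY_iff, cpt_x, cpt_y]
  simp only [cpt_left]

theorem isPathConnected_Fib (hm : 0 < m) {y : Fin (a + 2) → ℂ} (hy : y ∈ CubY W e) :
    IsPathConnected (Fib (CubY W e) (CubPi a) y) := by
  have h1 : Fib (CubY W e) (CubPi a) y =
      (fun z => cpt (fun j => y (Fin.castAdd 2 j)) z) ''
        DC (brp e (fun j => y (Fin.castAdd 2 j))) := by
    ext z
    constructor
    · rintro ⟨hz, hz'⟩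
      have h2 : (fun j => z (Fin.castAdd 2 j)) = fun j => y (Fin.castAdd 2 j) :=
        funext (fun j => by
          have := hz' j
          rwa [eval_CubPi, eval_CubPi] at this)
      refine ⟨(z (Fin.natAdd a 0), z (Fin.natAdd a 1)), ?_, ?_⟩
      · rw [← h2]
        exact ((mem_CubY_iff z).mp hz).2
      · show cpt (fun j => y (Fin.castAdd 2 j)) _ = z
        rw [← h2]
        exact cpt_eq z
    · rintro ⟨z, hz, rfl⟩
      refine ⟨(cpt_mem _ _).mpr ⟨hy.1, hz⟩, fun j => ?_⟩
      rw [eval_CubPi, eval_CubPi]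
      exact cpt_left _ _ _
  rw [h1]
  exact (isPathConnected_DC hm _).image (continuous_cpt continuous_const continuous_id)

theorem continuous_brp : Continuous (brp e) :=
  continuous_pi (fun i => MvPolynomial.continuous_eval (e i))

theorem hasTransport_CubY (hd : ∀ w ∈ W, ∀ i j, i ≠ j →
    MvPolynomial.eval w (e i) ≠ MvPolynomial.eval w (e j)) :
    HasTransport (CubY W e) (CubPi a) := by
  intro y y' β hy hβ h0 h1
  have hy' : ∀ s (j : Fin a), (y' s).1 (Fin.castAdd 2 j) = (y s).1 (Fin.castAdd 2 j) :=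
    fun s j => by
      have := hy s j
      rwa [eval_CubPi, eval_CubPi] at this
  have hβ' : ∀ u (j : Fin a), (β u).1 (Fin.castAdd 2 j) = (y 0).1 (Fin.castAdd 2 j) :=
    fun s j => by
      have := hβ s j
      rwa [eval_CubPi, eval_CubPi] at this
  let w : ℝ → Fin a → ℂ := fun s j => (y (projIcc 0 1 zero_le_one s)).1 (Fin.castAdd 2 j)
  have hyc : Continuous (fun s : ℝ => (y (projIcc 0 1 zero_le_one s)).1) :=
    continuous_subtype_val.comp (y.continuous.comp continuous_projIcc)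
  have hyc' : Continuous (fun s : ℝ => (y' (projIcc 0 1 zero_le_one s)).1) :=
    continuous_subtype_val.comp (y'.continuous.comp continuous_projIcc)
  have hw : Continuous w := continuous_pi (fun j => (continuous_apply _).comp hyc)
  have hwW : ∀ s, w s ∈ W := fun s => (y (projIcc 0 1 zero_le_one s)).2.1
  let p : ℝ → ℂ × ℂ := fun s => ((y (projIcc 0 1 zero_le_one s)).1 (Fin.natAdd a 0),
    (y (projIcc 0 1 zero_le_one s)).1 (Fin.natAdd a 1))
  let p' : ℝ → ℂ × ℂ := fun s => ((y' (projIcc 0 1 zero_le_one s)).1 (Fin.natAdd a 0),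
    (y' (projIcc 0 1 zero_le_one s)).1 (Fin.natAdd a 1))
  have hp : Continuous p :=
    ((continuous_apply _).comp hyc).prodMk ((continuous_apply _).comp hyc)
  have hp' : Continuous p' :=
    ((continuous_apply _).comp hyc').prodMk ((continuous_apply _).comp hyc')
  have hpF : ∀ s, p s ∈ DC (brp e (w s)) := fun s =>
    ((mem_CubY_iff _).mp (y (projIcc 0 1 zero_le_one s)).2).2
  have hpF' : ∀ s, p' s ∈ DC (brp e (w s)) := fun s => by
    have h2 := ((mem_CubY_iff _).mp (y' (projIcc 0 1 zero_le_one s)).2).2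
    have h3 : (fun j => (y' (projIcc 0 1 zero_le_one s)).1 (Fin.castAdd 2 j)) = w s :=
      funext (fun j => hy' _ j)
    rw [h3] at h2
    exact h2
  have hw0 : w 0 = fun j => (y 0).1 (Fin.castAdd 2 j) := by
    show (fun j => (y (projIcc 0 1 zero_le_one 0)).1 (Fin.castAdd 2 j)) = _
    rw [projIcc_left]
    rfl
  have hws : ∀ s : I, w s.1 = fun j => (y s).1 (Fin.castAdd 2 j) := fun s => by
    show (fun j => (y (projIcc 0 1 zero_le_one s.1)).1 (Fin.castAdd 2 j)) = _
    rw [projIcc_val]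
  have hpe : ∀ s : I, p s.1 = ((y s).1 (Fin.natAdd a 0), (y s).1 (Fin.natAdd a 1)) := fun s => by
    show ((y (projIcc 0 1 zero_le_one s.1)).1 (Fin.natAdd a 0),
      (y (projIcc 0 1 zero_le_one s.1)).1 (Fin.natAdd a 1)) = _
    rw [projIcc_val]
  have hpe' : ∀ s : I, p' s.1 = ((y' s).1 (Fin.natAdd a 0), (y' s).1 (Fin.natAdd a 1)) :=
    fun s => by
      show ((y' (projIcc 0 1 zero_le_one s.1)).1 (Fin.natAdd a 0),
        (y' (projIcc 0 1 zero_le_one s.1)).1 (Fin.natAdd a 1)) = _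
      rw [projIcc_val]
  have hL := lifts_DC (e := fun s => brp e (w s)) (continuous_brp.comp hw)
    (fun s _ i j hij => by
      by_contra hne
      exact hd (w s) (hwW s) i j hne hij) hp hp' (fun s _ => hpF s) (fun s _ => hpF' s)
  obtain ⟨B, hB1, hB2, hB3⟩ := hL
    ⟨fun u => ((β u).1 (Fin.natAdd a 0), (β u).1 (Fin.natAdd a 1)),
      ((continuous_apply _).comp (continuous_subtype_val.comp β.continuous)).prodMk
        ((continuous_apply _).comp (continuous_subtype_val.comp β.continuous))⟩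
    (fun u => by
      have h2 := ((mem_CubY_iff _).mp (β u).2).2
      have h3 : (fun j => (β u).1 (Fin.castAdd 2 j)) = w 0 := by
        rw [hw0]
        exact funext (fun j => hβ' _ j)
      rw [h3] at h2
      exact h2)
    (by
      show ((β 0).1 (Fin.natAdd a 0), (β 0).1 (Fin.natAdd a 1)) = p (0 : I).1
      rw [hpe, h0])
    (by
      show ((β 1).1 (Fin.natAdd a 0), (β 1).1 (Fin.natAdd a 1)) = p' (0 : I).1
      rw [hpe', h1])
  refine ⟨⟨fun x => ⟨cpt (w x.1.1) (B (x.1.1, x.2)), (cpt_mem _ _).mpr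
    ⟨hwW _, hB1 x.1.1 x.1.2 x.2⟩⟩, ?_⟩, ?_, ?_, ?_, ?_⟩
  · refine Continuous.subtype_mk (continuous_cpt ?_ ?_) _
    · exact hw.comp (continuous_subtype_val.comp continuous_fst)
    · exact B.continuous.comp (by fun_prop)
  · intro s u j
    show MvPolynomial.eval (cpt (w s.1) (B (s.1, u))) (CubPi a j) = _
    rw [eval_CubPi, eval_CubPi, cpt_left, hws]
  · intro u
    apply Subtype.ext
    show cpt (w (0 : I).1) (B ((0 : I).1, u)) = (β u).1
    have h2 : B ((0 : I).1, u) = ((β u).1 (Fin.natAdd a 0), (β u).1 (Fin.natAdd a 1)) := hB2 u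
    have h3 : w (0 : I).1 = fun j => (β u).1 (Fin.castAdd 2 j) := by
      rw [hws]
      exact funext (fun j => (hβ' u j).symm)
    rw [h2, h3]
    exact cpt_eq _
  · intro s
    apply Subtype.ext
    show cpt (w s.1) (B (s.1, 0)) = (y s).1
    rw [(hB3 s.1 s.2).1, hpe, hws]
    exact cpt_eq _
  · intro s
    apply Subtype.ext
    show cpt (w s.1) (B (s.1, 1)) = (y' s).1
    have h3 : w s.1 = fun j => (y' s).1 (Fin.castAdd 2 j) := by
      rw [hws]
      exact funext (fun j => (hy' s j).symm)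
    rw [(hB3 s.1 s.2).2, hpe', h3]
    exact cpt_eq _

end

/-- the families of affine cubics -/
theorem cubic_family {a : ℕ} (W : Set (Fin a → ℂ)) (e : Fin 3 → MvPolynomial (Fin a) ℂ)
    (hd : ∀ w ∈ W, ∀ i j, i ≠ j → MvPolynomial.eval w (e i) ≠ MvPolynomial.eval w (e j)) :
    (∀ y ∈ CubY W e, IsPathConnected (Fib (CubY W e) (CubPi a) y)) ∧
      HasTransport (CubY W e) (CubPi a) :=
  ⟨fun _ hy => isPathConnected_Fib (by norm_num) hy, hasTransport_CubY hd⟩

end Pool.Agent.X325.EC
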