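import Mathlib
import Pool.Agent.X325.EC.Cov

/-! The group law on the completed cubic `y² = (x - e₀)(x - e₁)(x - e₂)`. -/

set_option autoImplicit false

open Topology Set Filter

namespace Pool.Agent.X325.EC

/-- the Weierstrass curve `y² = (x - e₀)(x - e₁)(x - e₂)` -/
noncomputable def WC (e : Fin 3 → ℂ) : WeierstrassCurve.Affine ℂ :=
  { a₁ := 0, a₂ := -(e 0 + e 1 + e 2), a₃ := 0, a₄ := e 0 * e 1 + e 0 * e 2 + e 1 * e 2,
    a₆ := -(e 0 * e 1 * e 2) }

variable {e : Fin 3 → ℂ}

theorem mem_DC_iff (x y : ℂ) :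
    (x, y) ∈ DC e ↔ y ^ 2 = (x - e 0) * (x - e 1) * (x - e 2) := by
  show y ^ 2 = ∏ i, (x - e i) ↔ _
  rw [Fin.prod_univ_three]

theorem nonsing_iff (he : Function.Injective e) (x y : ℂ) :
    (WC e).Nonsingular x y ↔ (x, y) ∈ DC e := by
  rw [WeierstrassCurve.Affine.nonsingular_iff', WeierstrassCurve.Affine.equation_iff, mem_DC_iff]
  simp only [WC]
  have h01 : e 0 - e 1 ≠ 0 := sub_ne_zero.mpr (fun h => by simpa using he h)
  have h02 : e 0 - e 2 ≠ 0 := sub_ne_zero.mpr (fun h => by simpa using he h)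
  have h12 : e 1 - e 2 ≠ 0 := sub_ne_zero.mpr (fun h => by simpa using he h)
  constructor
  · rintro ⟨h, _⟩
    linear_combination h
  · intro h
    refine ⟨by linear_combination h, ?_⟩
    by_contra hn
    push Not at hn
    obtain ⟨h1, h2⟩ := hn
    have hy : y = 0 := by linear_combination h2 / 2
    subst hy
    have h3 : (x - e 0) * (x - e 1) * (x - e 2) = 0 := by rw [← h]; ring
    rcases mul_eq_zero.mp h3 with h4 | h4
    · rcases mul_eq_zero.mp h4 with h5 | h5
      · have : (e 0 - e 1) * (e 0 - e 2) = 0 := by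
          have hx : x = e 0 := sub_eq_zero.mp h5
          subst hx
          linear_combination -h1
        exact mul_ne_zero h01 h02 this
      · have : (e 0 - e 1) * (e 1 - e 2) = 0 := by
          have hx : x = e 1 := sub_eq_zero.mp h5
          subst hx
          linear_combination h1
        exact mul_ne_zero h01 h12 this
    · have : (e 0 - e 2) * (e 1 - e 2) = 0 := by
        have hx : x = e 2 := sub_eq_zero.mp h4
        subst hx
        linear_combination -h1
      exact mul_ne_zero h02 h12 this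

/-- the completed curve -/
def EP (e : Fin 3 → ℂ) : Type := OnePoint (DC e)

instance : TopologicalSpace (EP e) := inferInstanceAs (TopologicalSpace (OnePoint (DC e)))

/-- the affine points -/
def pt (w : DC e) : EP e := OnePoint.some w

/-- the points of the curve and the points of the Weierstrass curve -/
noncomputable def ptEquiv [he : Fact (Function.Injective e)] : EP e ≃ (WC e).Point where
  toFun P := Option.elim P .zero (fun w => .some w.1.1 w.1.2 ((nonsing_iff he.out _ _).mpr w.2))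
  invFun p := match p with
    | .zero => OnePoint.infty
    | .some x y h => pt ⟨(x, y), (nonsing_iff he.out _ _).mp h⟩
  left_inv := by
    rintro (_ | w)
    · rfl
    · rfl
  right_inv := by
    rintro (_ | ⟨x, y, h⟩)
    · rfl
    · rfl

noncomputable instance [Fact (Function.Injective e)] : AddCommGroup (EP e) :=
  ptEquiv.addCommGroup

variable [he : Fact (Function.Injective e)]

theorem pt_zero : (0 : EP e) = (OnePoint.infty : OnePoint (DC e)) := rfl

theorem ptEquiv_add (P Q : EP e) : ptEquiv (P + Q) = ptEquiv P + ptEquiv Q :=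
  ptEquiv.apply_symm_apply _

theorem ptEquiv_pt (w : DC e) :
    ptEquiv (pt w) = .some w.1.1 w.1.2 ((nonsing_iff he.out _ _).mpr w.2) := rfl

theorem cases_EP (P : EP e) : P = 0 ∨ ∃ w : DC e, P = pt w := by
  rcases P with _ | w
  · exact Or.inl rfl
  · exact Or.inr ⟨w, rfl⟩

theorem pt_ne_zero (w : DC e) : pt w ≠ (0 : EP e) := OnePoint.coe_ne_infty w

theorem pt_inj {w w' : DC e} (h : pt w = pt w') : w = w' := OnePoint.coe_injective h

/-- the slope -/
noncomputable def slp (w w' : ℂ × ℂ) : ℂ := (w.2 - w'.2) / (w.1 - w'.1)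

/-- the addition formula -/
noncomputable def adf (e : Fin 3 → ℂ) (w w' : ℂ × ℂ) : ℂ × ℂ :=
  (slp w w' ^ 2 + (e 0 + e 1 + e 2) - w.1 - w'.1,
    -(slp w w' * ((slp w w' ^ 2 + (e 0 + e 1 + e 2) - w.1 - w'.1) - w.1) + w.2))

theorem pt_add (w w' : DC e) (h : w.1.1 ≠ w'.1.1) :
    ∃ h : adf e w.1 w'.1 ∈ DC e, pt w + pt w' = pt ⟨adf e w.1 w'.1, h⟩ := by
  have h1 := WeierstrassCurve.Affine.Point.add_of_X_ne
    (h₁ := (nonsing_iff he.out _ _).mpr w.2) (h₂ := (nonsing_iff he.out _ _).mpr w'.2) h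
  have h2 : (WC e).addX w.1.1 w'.1.1 ((WC e).slope w.1.1 w'.1.1 w.1.2 w'.1.2) =
      (adf e w.1 w'.1).1 := by
    rw [WeierstrassCurve.Affine.slope_of_X_ne h]
    simp only [WeierstrassCurve.Affine.addX, WC, adf, slp]
    ring
  have h3 : (WC e).addY w.1.1 w'.1.1 w.1.2 ((WC e).slope w.1.1 w'.1.1 w.1.2 w'.1.2) =
      (adf e w.1 w'.1).2 := by
    rw [WeierstrassCurve.Affine.slope_of_X_ne h]
    simp only [WeierstrassCurve.Affine.addY, WeierstrassCurve.Affine.negAddY,
      WeierstrassCurve.Affine.negY, WeierstrassCurve.Affine.addX, WC, adf, slp]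
    ring
  have h4 : (WC e).Nonsingular (adf e w.1 w'.1).1 (adf e w.1 w'.1).2 := by
    rw [← h2, ← h3]
    exact WeierstrassCurve.Affine.nonsingular_add ((nonsing_iff he.out _ _).mpr w.2)
      ((nonsing_iff he.out _ _).mpr w'.2) (fun hxy => h hxy.left)
  refine ⟨(nonsing_iff he.out _ _).mp h4, ?_⟩
  apply ptEquiv.injective
  rw [ptEquiv_add, ptEquiv_pt, ptEquiv_pt, ptEquiv_pt, h1]
  simp only [WeierstrassCurve.Affine.Point.some.injEq]
  exact ⟨h2, h3⟩

theorem neg_mem {w : ℂ × ℂ} (hw : w ∈ DC e) : (w.1, -w.2) ∈ DC e := by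
  show (-w.2) ^ 2 = _
  rw [neg_sq]
  exact hw

theorem pt_neg (w : DC e) : -pt w = pt ⟨(w.1.1, -w.1.2), neg_mem w.2⟩ := by
  rw [neg_eq_iff_add_eq_zero]
  apply ptEquiv.injective
  rw [ptEquiv_add, ptEquiv_pt, ptEquiv_pt]
  refine (WeierstrassCurve.Affine.Point.add_of_Y_eq rfl ?_).trans rfl
  simp [WeierstrassCurve.Affine.negY, WC]

/-- two points with the same first coordinate -/
theorem eq_or_neg {w w' : DC e} (h : w.1.1 = w'.1.1) : pt w = pt w' ∨ pt w = -pt w' := by
  have h1 : w.1.2 ^ 2 = ∏ i, (w.1.1 - e i) := w.2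
  have h2 : w'.1.2 ^ 2 = ∏ i, (w'.1.1 - e i) := w'.2
  rw [h, ← h2] at h1
  rcases sq_eq_sq_iff_eq_or_eq_neg.mp h1 with h3 | h3
  · left
    congr 1
    exact Subtype.ext (Prod.ext h h3)
  · right
    rw [pt_neg]
    congr 1
    exact Subtype.ext (Prod.ext h h3)

end Pool.Agent.X325.EC
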