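import Mathlib
import Pool.Agent.X325.EC.Grp

/-! The topology of the completed cubic. -/

set_option autoImplicit false

open Topology Set Filter

namespace Pool.Agent.X325.EC

theorem mem_coclosedCompact_iff' {X : Type*} [TopologicalSpace X] {s : Set X} :
    s ∈ coclosedCompact X ↔ ∃ t, IsClosed t ∧ IsCompact t ∧ tᶜ ⊆ s :=
  hasBasis_coclosedCompact.mem_iff.trans
    ⟨fun ⟨t, h, h'⟩ => ⟨t, h.1, h.2, h'⟩, fun ⟨t, h, h1, h'⟩ => ⟨t, ⟨h, h1⟩, h'⟩⟩

variable {e : Fin 3 → ℂ}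

theorem nhds_pt (w : DC e) : 𝓝 (pt w) = map pt (𝓝 w) := OnePoint.nhds_coe_eq w

/-- the point at infinity -/
def inf : EP e := (OnePoint.infty : OnePoint (DC e))

theorem nhds_inf : 𝓝 (inf : EP e) = map pt (coclosedCompact (DC e)) ⊔ pure inf :=
  OnePoint.nhds_infty_eq

theorem zero_eq_inf [Fact (Function.Injective e)] : (0 : EP e) = inf := rfl

theorem continuous_pt : Continuous (pt : DC e → EP e) := OnePoint.continuous_coe

theorem tendsto_pt {T : Type*} {l : Filter T} {f : T → EP e} {w : DC e} (g : T → ℂ × ℂ)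
    (hg : Tendsto g l (𝓝 w.1)) (h : ∀ᶠ t in l, ∃ h : g t ∈ DC e, f t = pt ⟨g t, h⟩) :
    Tendsto f l (𝓝 (pt w)) := by
  intro U hU
  rw [nhds_pt, mem_map, nhds_subtype, mem_comap] at hU
  obtain ⟨V, hV, hVU⟩ := hU
  rw [mem_map]
  filter_upwards [hg hV, h] with t h1 h2
  obtain ⟨h3, h4⟩ := h2
  show f t ∈ U
  rw [h4]
  exact hVU (show (⟨g t, h3⟩ : DC e).1 ∈ V from h1)

theorem tendsto_inf {T : Type*} {l : Filter T} {f : T → EP e}
    (h : ∀ R : ℝ, ∀ᶠ t in l, f t = inf ∨ ∃ w, f t = pt w ∧ R < ‖w.1.1‖) :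
    Tendsto f l (𝓝 (inf : EP e)) := by
  intro U hU
  rw [nhds_inf, mem_sup, mem_map, mem_coclosedCompact_iff'] at hU
  obtain ⟨⟨K, hK, hK', hKU⟩, hU'⟩ := hU
  obtain ⟨R, hR⟩ := hK'.exists_bound_of_continuousOn (f := fun w : DC e => w.1.1)
    (by fun_prop)
  rw [mem_map]
  filter_upwards [h R] with t ht
  rcases ht with ht | ⟨w, hw, hwR⟩
  · show f t ∈ U
    rw [ht]
    exact mem_pure.mp hU'
  · show f t ∈ U
    rw [hw]
    refine hKU (fun hwK => ?_)
    exact absurd (hR w hwK) (not_le.mpr hwR)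

theorem isClosed_DC (e : Fin 3 → ℂ) : IsClosed (DC e) := by
  unfold DC
  exact isClosed_eq (by fun_prop) (by fun_prop)

theorem tendsto_norm_x : Tendsto (fun w : DC e => ‖w.1.1‖) (coclosedCompact (DC e)) atTop := by
  rw [tendsto_atTop]
  intro R
  rw [Filter.Eventually, mem_coclosedCompact_iff']
  refine ⟨{w | ‖w.1.1‖ ≤ |R|}, ?_, ?_, ?_⟩
  · exact isClosed_le (by fun_prop) continuous_const
  · let M : ℝ := ∏ i, (|R| + ‖e i‖)
    have hM : 0 ≤ M := Finset.prod_nonneg (fun i _ => by positivity)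
    refine ((isClosed_DC e).isClosedEmbedding_subtypeVal.isCompact_preimage
      (isCompact_closedBall (0 : ℂ × ℂ) (|R| + 1 + M))).of_isClosed_subset
      (isClosed_le (by fun_prop) continuous_const) ?_
    intro w hw
    have hw' : ‖w.1.1‖ ≤ |R| := hw
    show w.1 ∈ Metric.closedBall (0 : ℂ × ℂ) (|R| + 1 + M)
    rw [mem_closedBall_zero_iff, Prod.norm_def]
    have h1 : w.1.2 ^ 2 = ∏ i, (w.1.1 - e i) := w.2
    have h2 : ‖w.1.2‖ ^ 2 ≤ M := by
      rw [← norm_pow, h1, norm_prod]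
      refine Finset.prod_le_prod (fun i _ => norm_nonneg _) (fun i _ => ?_)
      exact (norm_sub_le _ _).trans (by gcongr)
    have h3 : ‖w.1.2‖ ≤ 1 + M := by nlinarith [norm_nonneg w.1.2]
    have h4 : 0 ≤ |R| := abs_nonneg R
    exact max_le (by linarith) (by linarith)
  · intro w hw
    have h1 : ¬ ‖w.1.1‖ ≤ |R| := hw
    show R ≤ ‖w.1.1‖
    have := le_abs_self R
    linarith

theorem norm_x_cobounded (e : Fin 3 → ℂ) :
    Tendsto (fun w : DC e => w.1.1) (comap (fun w : DC e => ‖w.1.1‖) atTop)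
      (Bornology.cobounded ℂ) := by
  rw [← tendsto_norm_atTop_iff_cobounded]
  exact tendsto_comap

theorem tendsto_inv_x (e : Fin 3 → ℂ) (c : ℂ) :
    Tendsto (fun w : DC e => (w.1.1 - c)⁻¹) (comap (fun w : DC e => ‖w.1.1‖) atTop) (𝓝 0) := by
  refine tendsto_inv₀_cobounded.comp ?_
  rw [← tendsto_norm_atTop_iff_cobounded]
  refine tendsto_atTop_mono (f := fun w : DC e => ‖w.1.1‖ - ‖c‖) (fun w => norm_sub_norm_le _ _) ?_
  exact tendsto_atTop_add_const_right _ _ tendsto_comap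

theorem eventually_ne (e : Fin 3 → ℂ) (c : ℂ) :
    ∀ᶠ w : DC e in comap (fun w : DC e => ‖w.1.1‖) atTop, w.1.1 - c ≠ 0 := by
  have h1 : Tendsto (fun w : DC e => ‖w.1.1‖) (comap (fun w : DC e => ‖w.1.1‖) atTop) atTop :=
    tendsto_comap
  filter_upwards [h1.eventually (eventually_gt_atTop ‖c‖)] with w hw h0
  rw [sub_eq_zero.mp h0] at hw
  exact lt_irrefl _ hw

theorem tendsto_of_sq {T : Type*} {l : Filter T} {f : T → ℂ}
    (h : Tendsto (fun t => f t ^ 2) l (𝓝 0)) : Tendsto f l (𝓝 0) := by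
  rw [tendsto_zero_iff_norm_tendsto_zero] at h ⊢
  have h1 := (Real.continuous_sqrt.tendsto 0).comp h
  rw [Real.sqrt_zero] at h1
  refine h1.congr (fun t => ?_)
  show Real.sqrt ‖f t ^ 2‖ = ‖f t‖
  rw [norm_pow, Real.sqrt_sq (norm_nonneg _)]

/-- `y / (x - c)² → 0` at infinity -/
theorem tendsto_y_div (e : Fin 3 → ℂ) (c : ℂ) :
    Tendsto (fun w : DC e => w.1.2 * (w.1.1 - c)⁻¹ ^ 2)
      (comap (fun w : DC e => ‖w.1.1‖) atTop) (𝓝 0) := by
  refine tendsto_of_sq ?_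
  have ht := tendsto_inv_x e c
  have h1 : Tendsto (fun w : DC e => (1 + (c - e 0) * (w.1.1 - c)⁻¹) *
      (1 + (c - e 1) * (w.1.1 - c)⁻¹) * (1 + (c - e 2) * (w.1.1 - c)⁻¹) * (w.1.1 - c)⁻¹)
      (comap (fun w : DC e => ‖w.1.1‖) atTop)
      (𝓝 ((1 + (c - e 0) * 0) * (1 + (c - e 1) * 0) * (1 + (c - e 2) * 0) * 0)) := by
    refine Tendsto.mul (Tendsto.mul (Tendsto.mul ?_ ?_) ?_) ht
    all_goals exact tendsto_const_nhds.add (tendsto_const_nhds.mul ht)
  rw [mul_zero] at h1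
  refine h1.congr' ?_
  filter_upwards [eventually_ne e c] with w hw
  have h2 : w.1.2 ^ 2 = (w.1.1 - e 0) * (w.1.1 - e 1) * (w.1.1 - e 2) := (mem_DC_iff _ _).mp w.2
  rw [mul_pow, h2]
  field_simp
  ring

/-- the coordinates at infinity -/
theorem tendsto_chart (e : Fin 3 → ℂ) :
    Tendsto (fun w : DC e => ((w.1.1 / w.1.2, 1 / w.1.2) : ℂ × ℂ))
      (comap (fun w : DC e => ‖w.1.1‖) atTop) (𝓝 (0, 0)) := by
  have ht := tendsto_inv_x e 0
  simp only [sub_zero] at ht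
  have hne : ∀ᶠ w : DC e in comap (fun w : DC e => ‖w.1.1‖) atTop, w.1.1 ≠ 0 := by
    filter_upwards [eventually_ne e 0] with w hw
    simpa using hw
  have h0 : Tendsto (fun w : DC e => (1 - e 0 * w.1.1⁻¹) * (1 - e 1 * w.1.1⁻¹) *
      (1 - e 2 * w.1.1⁻¹)) (comap (fun w : DC e => ‖w.1.1‖) atTop) (𝓝 1) := by
    have : Tendsto (fun w : DC e => (1 - e 0 * w.1.1⁻¹) * (1 - e 1 * w.1.1⁻¹) *
      (1 - e 2 * w.1.1⁻¹)) (comap (fun w : DC e => ‖w.1.1‖) atTop)
      (𝓝 ((1 - e 0 * 0) * (1 - e 1 * 0) * (1 - e 2 * 0))) := by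
      refine Tendsto.mul (Tendsto.mul ?_ ?_) ?_
      all_goals exact tendsto_const_nhds.sub (tendsto_const_nhds.mul ht)
    simpa using this
  have h0i := h0.inv₀ one_ne_zero
  rw [inv_one] at h0i
  have hx : Tendsto (fun w : DC e => w.1.1 / w.1.2) (comap (fun w : DC e => ‖w.1.1‖) atTop)
      (𝓝 0) := by
    refine tendsto_of_sq ?_
    have h1 := ht.mul h0i
    rw [zero_mul] at h1
    refine h1.congr' ?_
    filter_upwards [hne, eventually_ne e (e 0), eventually_ne e (e 1), eventually_ne e (e 2)]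
      with w hw h3 h4 h5
    have h2 : w.1.2 ^ 2 = (w.1.1 - e 0) * (w.1.1 - e 1) * (w.1.1 - e 2) :=
      (mem_DC_iff _ _).mp w.2
    rw [div_pow, h2]
    have e1 : (1 - e 0 * w.1.1⁻¹) = (w.1.1 - e 0) / w.1.1 := by field_simp
    have e2 : (1 - e 1 * w.1.1⁻¹) = (w.1.1 - e 1) / w.1.1 := by field_simp
    have e3 : (1 - e 2 * w.1.1⁻¹) = (w.1.1 - e 2) / w.1.1 := by field_simp
    rw [e1, e2, e3]
    field_simp
  refine hx.prodMk_nhds ?_
  have h1 := hx.mul ht
  rw [zero_mul] at h1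
  refine h1.congr' ?_
  filter_upwards [hne] with w hw
  field_simp

section

variable [he : Fact (Function.Injective e)]

/-- the `2`-torsion point -/
def wT (e : Fin 3 → ℂ) : DC e := ⟨(e 0, 0), by
  rw [mem_DC_iff]
  ring⟩

theorem add_wT (w : DC e) (h : w.1.1 - e 0 ≠ 0) :
    ∃ h : (e 0 + (e 0 - e 1) * (e 0 - e 2) * (w.1.1 - e 0)⁻¹,
      -((e 0 - e 1) * (e 0 - e 2)) * (w.1.2 * (w.1.1 - e 0)⁻¹ ^ 2)) ∈ DC e,
      pt w + pt (wT e) = pt ⟨_, h⟩ := by
  obtain ⟨h1, h2⟩ := pt_add w (wT e) (sub_ne_zero.mp h)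
  have hy : w.1.2 ^ 2 = (w.1.1 - e 0) * (w.1.1 - e 1) * (w.1.1 - e 2) := (mem_DC_iff _ _).mp w.2
  have hX : (adf e w.1 (wT e).1).1 = e 0 + (e 0 - e 1) * (e 0 - e 2) * (w.1.1 - e 0)⁻¹ := by
    show ((w.1.2 - 0) / (w.1.1 - e 0)) ^ 2 + (e 0 + e 1 + e 2) - w.1.1 - e 0 = _
    rw [sub_zero, div_pow, hy]
    field_simp
    ring
  have hY : (adf e w.1 (wT e).1).2 =
      -((e 0 - e 1) * (e 0 - e 2)) * (w.1.2 * (w.1.1 - e 0)⁻¹ ^ 2) := by
    show -(((w.1.2 - 0) / (w.1.1 - e 0)) * ((adf e w.1 (wT e).1).1 - w.1.1) + w.1.2) = _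
    rw [hX, sub_zero]
    field_simp
    ring
  have h3 : adf e w.1 (wT e).1 = (e 0 + (e 0 - e 1) * (e 0 - e 2) * (w.1.1 - e 0)⁻¹,
      -((e 0 - e 1) * (e 0 - e 2)) * (w.1.2 * (w.1.1 - e 0)⁻¹ ^ 2)) := Prod.ext hX hY
  rw [← h3]
  exact ⟨h1, h2⟩

theorem wT_two : pt (wT e) + pt (wT e) = 0 := by
  have h : -pt (wT e) = pt (wT e) := by
    rw [pt_neg]
    congr 1
    exact Subtype.ext (Prod.ext rfl neg_zero)
  nth_rewrite 1 [← h]
  exact neg_add_cancel _

/-- continuity of the translation by `Q` at `P` -/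
def CA (Q P : EP e) : Prop := ContinuousAt (fun R => R + Q) P

theorem CA.comp {Q₁ Q₂ P : EP e} (h1 : CA Q₁ P) (h2 : CA Q₂ (P + Q₁)) : CA (Q₁ + Q₂) P := by
  have h3 : (fun R : EP e => R + (Q₁ + Q₂)) = (fun R => R + Q₂) ∘ (fun R => R + Q₁) := by
    funext R
    show R + (Q₁ + Q₂) = R + Q₁ + Q₂
    rw [add_assoc]
  unfold CA
  rw [h3]
  exact ContinuousAt.comp h2 h1

theorem CA_zero (P : EP e) : CA 0 P := by
  unfold CA
  simp only [add_zero]
  exact continuousAt_id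

theorem CA_T_zero : CA (pt (wT e)) (0 : EP e) := by
  show Tendsto (fun R : EP e => R + pt (wT e)) (𝓝 0) (𝓝 (0 + pt (wT e)))
  rw [zero_add, zero_eq_inf, nhds_inf, tendsto_sup]
  constructor
  · rw [tendsto_map'_iff]
    have hl : coclosedCompact (DC e) ≤ comap (fun w : DC e => ‖w.1.1‖) atTop :=
      tendsto_iff_comap.mp tendsto_norm_x
    refine tendsto_pt (fun w : DC e => (e 0 + (e 0 - e 1) * (e 0 - e 2) * (w.1.1 - e 0)⁻¹,
      -((e 0 - e 1) * (e 0 - e 2)) * (w.1.2 * (w.1.1 - e 0)⁻¹ ^ 2))) ?_ ?_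
    · refine Tendsto.mono_left ?_ hl
      have h1 := (tendsto_inv_x e (e 0)).const_mul ((e 0 - e 1) * (e 0 - e 2))
      have h2 := (tendsto_y_div e (e 0)).const_mul (-((e 0 - e 1) * (e 0 - e 2)))
      rw [mul_zero] at h1 h2
      have h3 := h1.const_add (e 0)
      rw [add_zero] at h3
      exact h3.prodMk_nhds h2
    · filter_upwards [hl (eventually_ne e (e 0))] with w hw
      exact add_wT w hw
  · have h1 : (inf : EP e) + pt (wT e) = pt (wT e) := zero_add (pt (wT e))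
    have h2 := tendsto_pure_nhds (fun R : EP e => R + pt (wT e)) inf
    rw [h1] at h2
    exact h2

theorem CA_T_T : CA (pt (wT e)) (pt (wT e)) := by
  show Tendsto (fun R : EP e => R + pt (wT e)) (𝓝 (pt (wT e))) (𝓝 (pt (wT e) + pt (wT e)))
  rw [wT_two, zero_eq_inf, nhds_pt, tendsto_map'_iff]
  refine tendsto_inf (fun R => ?_)
  have h01 : e 0 - e 1 ≠ 0 := sub_ne_zero.mpr (fun h => by simpa using he.out h)
  have h02 : e 0 - e 2 ≠ 0 := sub_ne_zero.mpr (fun h => by simpa using he.out h)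
  set k := (e 0 - e 1) * (e 0 - e 2) with hk
  have hk0 : 0 < ‖k‖ := norm_pos_iff.mpr (mul_ne_zero h01 h02)
  have hc : Tendsto (fun w : DC e => ‖w.1.1 - e 0‖) (𝓝 (wT e)) (𝓝 0) := by
    have h1 : Continuous (fun w : DC e => ‖w.1.1 - e 0‖) := by fun_prop
    have h2 := h1.tendsto (wT e)
    have h3 : ‖(wT e).1.1 - e 0‖ = 0 := by
      show ‖e 0 - e 0‖ = 0
      rw [sub_self, norm_zero]
    rwa [h3] at h2
  have hpos : 0 < ‖k‖ / (|R| + ‖e 0‖ + 1) := by positivity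
  filter_upwards [hc.eventually (gt_mem_nhds hpos)] with w hw
  by_cases h0 : w.1.1 - e 0 = 0
  · left
    have h1 : w = wT e := by
      have h2 : w.1.2 ^ 2 = (w.1.1 - e 0) * (w.1.1 - e 1) * (w.1.1 - e 2) :=
        (mem_DC_iff _ _).mp w.2
      rw [h0, zero_mul, zero_mul] at h2
      exact Subtype.ext (Prod.ext (sub_eq_zero.mp h0)
        (pow_eq_zero_iff two_ne_zero |>.mp h2))
    rw [h1]
    exact wT_two
  · right
    obtain ⟨h1, h2⟩ := add_wT w h0
    refine ⟨_, h2, ?_⟩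
    show R < ‖e 0 + (e 0 - e 1) * (e 0 - e 2) * (w.1.1 - e 0)⁻¹‖
    rw [← hk]
    have h3 : ‖k * (w.1.1 - e 0)⁻¹‖ - ‖e 0‖ ≤ ‖e 0 + k * (w.1.1 - e 0)⁻¹‖ := by
      have := norm_sub_le (e 0 + k * (w.1.1 - e 0)⁻¹) (e 0)
      rw [add_sub_cancel_left] at this
      linarith
    have h4 : |R| + ‖e 0‖ + 1 < ‖k * (w.1.1 - e 0)⁻¹‖ := by
      have h5 : 0 < ‖w.1.1 - e 0‖ := norm_pos_iff.mpr h0
      rw [norm_mul, norm_inv, ← div_eq_mul_inv, lt_div_iff₀ h5]
      rw [lt_div_iff₀ (by positivity)] at hw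
      linarith
    have := le_abs_self R
    linarith

theorem joint_pt {w w' : DC e} (h : w.1.1 ≠ w'.1.1) :
    ContinuousAt (fun x : EP e × EP e => x.1 + x.2) (pt w, pt w') := by
  obtain ⟨h1, h2⟩ := pt_add w w' h
  show Tendsto (fun x : EP e × EP e => x.1 + x.2) (𝓝 (pt w, pt w')) (𝓝 (pt w + pt w'))
  rw [h2, nhds_prod_eq, nhds_pt, nhds_pt, prod_map_map_eq, tendsto_map'_iff]
  have hne : ∀ᶠ x : DC e × DC e in 𝓝 w ×ˢ 𝓝 w', x.1.1.1 ≠ x.2.1.1 := by
    rw [← nhds_prod_eq]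
    have hc : Continuous (fun x : DC e × DC e => x.1.1.1 - x.2.1.1) := by fun_prop
    have h3 := hc.continuousAt.eventually_ne (x := (w, w')) (sub_ne_zero.mpr h)
    filter_upwards [h3] with x hx
    exact sub_ne_zero.mp hx
  refine tendsto_pt (fun x : DC e × DC e => adf e x.1.1 x.2.1) ?_ ?_
  · rw [← nhds_prod_eq]
    have hs : ContinuousAt (fun x : DC e × DC e => slp x.1.1 x.2.1) (w, w') := by
      unfold slp
      refine ContinuousAt.div (by fun_prop) (by fun_prop) (sub_ne_zero.mpr h)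
    have hX : ContinuousAt (fun x : DC e × DC e => slp x.1.1 x.2.1 ^ 2 + (e 0 + e 1 + e 2) -
        x.1.1.1 - x.2.1.1) (w, w') := by
      refine ((hs.pow 2).add continuousAt_const).sub ?_ |>.sub ?_
      · fun_prop
      · fun_prop
    unfold adf
    refine ContinuousAt.prodMk hX ?_
    refine ((hs.mul (hX.sub ?_)).add ?_).neg
    · fun_prop
    · fun_prop
  · filter_upwards [hne] with x hx
    exact pt_add x.1 x.2 hx

theorem CA_pt {w w' : DC e} (h : w.1.1 ≠ w'.1.1) : CA (pt w') (pt w) := by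
  have h1 := joint_pt h
  have h2 : ContinuousAt (fun R : EP e => (R, pt w')) (pt w) := by fun_prop
  exact ContinuousAt.comp (f := fun R : EP e => (R, pt w')) h1 h2

/-- the points `w` with `2 w = R` -/
theorem finite_halves (R : EP e) : {w : DC e | pt w + pt w = R}.Finite := by
  have h2 : {D : EP e | D + D = 0}.Finite := by
    refine ((finite_singleton (0 : EP e)).union
      (finite_range (fun i : Fin 3 => (pt ⟨(e i, 0), by
        show (0 : ℂ) ^ 2 = ∏ j, (e i - e j)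
        rw [Finset.prod_eq_zero (Finset.mem_univ i) (sub_self _)]
        ring⟩ : EP e)))).subset ?_
    intro D hD
    rcases cases_EP D with rfl | ⟨w, rfl⟩
    · exact Or.inl rfl
    · right
      have h3 : pt w = -pt w := eq_neg_of_add_eq_zero_left hD
      rw [pt_neg] at h3
      have h4 := congrArg (fun z : DC e => z.1.2) (pt_inj h3)
      have h5 : w.1.2 = 0 := self_eq_neg.mp h4
      have h6 : w.1.2 ^ 2 = ∏ i, (w.1.1 - e i) := w.2
      rw [h5, zero_pow two_ne_zero] at h6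
      obtain ⟨i, _, hi⟩ := Finset.prod_eq_zero_iff.mp h6.symm
      refine ⟨i, ?_⟩
      show pt _ = pt w
      congr 1
      exact Subtype.ext (Prod.ext (sub_eq_zero.mp hi).symm h5.symm)
  rcases ({w : DC e | pt w + pt w = R}).eq_empty_or_nonempty with h0 | ⟨w₀, hw₀⟩
  · rw [h0]
    exact finite_empty
  · have hw₀' : pt w₀ + pt w₀ = R := hw₀
    refine Finite.of_finite_image (f := fun w : DC e => pt w - pt w₀) (h2.subset ?_) ?_
    · rintro _ ⟨w, hw, rfl⟩
      have hw' : pt w + pt w = R := hw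
      show pt w - pt w₀ + (pt w - pt w₀) = 0
      rw [show pt w - pt w₀ + (pt w - pt w₀) = (pt w + pt w) - (pt w₀ + pt w₀) by abel, hw', hw₀',
        sub_self]
    · intro w _ w' _ hww
      exact pt_inj (sub_left_injective hww)

theorem exists_pt (S : Set (DC e)) (hS : S.Finite) (x₀ : ℂ) :
    ∃ w : DC e, w ∉ S ∧ w.1.1 ≠ x₀ := by
  have hf : (((fun w : DC e => w.1.1) '' S) ∪ {x₀}).Finite :=
    (hS.image _).union (finite_singleton _)
  obtain ⟨x, hx⟩ := hf.infinite_compl.nonempty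
  have hx' : x ∉ ((fun w : DC e => w.1.1) '' S) ∪ {x₀} := hx
  let w : DC e := ⟨(x, sq (∏ i, (x - e i))), sq_sq _⟩
  refine ⟨w, fun hw => hx' (Or.inl ⟨w, hw, rfl⟩), fun h => hx' (Or.inr h)⟩

theorem CA_aff_ne {Q P : EP e} (hP : P ≠ 0) (hPQ : P + Q ≠ 0) : CA Q P := by
  by_cases hQ : Q = 0
  · subst hQ
    exact CA_zero P
  obtain ⟨p, rfl⟩ := (cases_EP P).resolve_left hP
  obtain ⟨q, rfl⟩ := (cases_EP Q).resolve_left hQ
  obtain ⟨w, hw1, hw2⟩ := exists_pt ({w : DC e | pt w + pt w = pt q - pt p} ∪ {q})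
    ((finite_halves _).union (finite_singleton _)) p.1.1
  have hwq : w ≠ q := fun h => hw1 (Or.inr h)
  have hwh : pt w + pt w ≠ pt q - pt p := fun h => hw1 (Or.inl h)
  have h1 : CA (pt w) (pt p) := CA_pt (Ne.symm hw2)
  obtain ⟨h2, h3⟩ := pt_add p w (Ne.symm hw2)
  have h4 : pt q - pt w ≠ 0 := sub_ne_zero.mpr (fun h => hwq (pt_inj h).symm)
  obtain ⟨v, hv⟩ := (cases_EP (pt q - pt w)).resolve_left h4
  have h5 : CA (pt v) (pt p + pt w) := by
    rw [h3]
    refine CA_pt (fun hx => ?_)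
    rcases eq_or_neg hx with h6 | h6
    · rw [← h3, ← hv] at h6
      apply hwh
      have : pt w + pt w = (pt p + pt w) - (pt q - pt w) + (pt q - pt p) := by abel
      rw [this, h6]
      abel
    · rw [← h3, ← hv] at h6
      apply hPQ
      have : pt p + pt q = (pt p + pt w) + (pt q - pt w) := by abel
      rw [this, h6]
      abel
  have h7 := h1.comp h5
  rwa [← hv, add_sub_cancel] at h7

theorem CA_aff {Q P : EP e} (hP : P ≠ 0) : CA Q P := by
  by_cases hPQ : P + Q = 0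
  · have hT : P + (Q + pt (wT e)) = pt (wT e) := by
      rw [← add_assoc, hPQ, zero_add]
    have h1 : CA (Q + pt (wT e)) P := CA_aff_ne hP (by rw [hT]; exact pt_ne_zero _)
    have h2 := h1.comp (Q₂ := pt (wT e)) (by rw [hT]; exact CA_T_T)
    rwa [add_assoc, wT_two, add_zero] at h2
  · exact CA_aff_ne hP hPQ

theorem CA_all (Q P : EP e) : CA Q P := by
  by_cases hP : P = 0
  · subst hP
    have h1 := (CA_T_zero (e := e)).comp (Q₂ := Q - pt (wT e))
      (by rw [zero_add]; exact CA_aff (pt_ne_zero _))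
    rwa [add_sub_cancel] at h1
  · exact CA_aff hP

theorem continuous_trans (Q : EP e) : Continuous (fun R : EP e => R + Q) :=
  continuous_iff_continuousAt.mpr (fun P => CA_all Q P)

theorem continuous_add_EP : Continuous (fun x : EP e × EP e => x.1 + x.2) := by
  rw [continuous_iff_continuousAt]
  rintro ⟨P, Q⟩
  obtain ⟨w, _, _⟩ := exists_pt (e := e) ∅ finite_empty 0
  obtain ⟨w', _, hw'⟩ := exists_pt (e := e) ∅ finite_empty w.1.1
  have h0 := joint_pt (Ne.symm hw')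
  have h1 : (fun x : EP e × EP e => x.1 + x.2) =
      (fun R : EP e => R + ((P + Q) - (pt w + pt w'))) ∘ ((fun x : EP e × EP e => x.1 + x.2) ∘
      (fun x : EP e × EP e => (x.1 + (pt w - P), x.2 + (pt w' - Q)))) := by
    funext x
    show x.1 + x.2 = (x.1 + (pt w - P)) + (x.2 + (pt w' - Q)) + ((P + Q) - (pt w + pt w'))
    abel
  rw [h1]
  refine (continuous_trans _).continuousAt.comp (ContinuousAt.comp ?_ ?_)
  · show ContinuousAt _ (P + (pt w - P), Q + (pt w' - Q))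
    rw [add_sub_cancel, add_sub_cancel]
    exact h0
  · exact (((continuous_trans _).comp continuous_fst).prodMk
      ((continuous_trans _).comp continuous_snd)).continuousAt

end

end Pool.Agent.X325.EC
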