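import Mathlib
import Pool.Agent.X325.EC.Top
import Pool.Agent.X325.EC.Fam
import Pool.Agent.Y193.CS.Torus

/-! The image of the fundamental group of an affine cubic under a map which extends to the point at
infinity is commutative. -/

set_option autoImplicit false

open Topology Set Filter

namespace Pool.Agent.X325.EC

open Pool.Agent.X325.HS Pool.Agent.Y193.CS

/-- the fundamental group of the completed cubic is commutative -/
theorem comm_EP {e : Fin 3 → ℂ} (he : Function.Injective e) (c : EP e)
    (g h : FundamentalGroup (EP e) c) : g * h = h * g := by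
  haveI : Fact (Function.Injective e) := ⟨he⟩
  refine comm_of_mul (Y := EP e) (e := c)
    ⟨fun x => (x.1 + x.2) + (-c), (continuous_trans (-c)).comp continuous_add_EP⟩ ?_ ?_ g h
  · intro y
    show c + y + -c = y
    abel
  · intro y
    show y + c + -c = y
    abel

section

variable {e : Fin 3 → ℂ} {Z : Type} [TopologicalSpace Z]

/-- the extension of a map to the completed curve -/
noncomputable def extE (φ : C(DC e, Z)) (z : Z)
    (hφ : Tendsto φ (comap (fun w : DC e => ‖w.1.1‖) atTop) (𝓝 z)) : C(EP e, Z) where
  toFun P := Option.elim P z φ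
  continuous_toFun := by
    have h : Continuous (fun P : OnePoint (DC e) => Option.elim P z φ) := by
      rw [OnePoint.continuous_iff]
      refine ⟨?_, φ.continuous⟩
      exact hφ.mono_left (tendsto_iff_comap.mp tendsto_norm_x)
    exact h

theorem comm_cubic (he : Function.Injective e) (φ : C(DC e, Z)) (z : Z)
    (hφ : Tendsto φ (comap (fun w : DC e => ‖w.1.1‖) atTop) (𝓝 z)) (w : DC e)
    (g h : FundamentalGroup (DC e) w) :
    FundamentalGroup.map φ w g * FundamentalGroup.map φ w h =
      FundamentalGroup.map φ w h * FundamentalGroup.map φ w g := by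
  let ι : C(DC e, EP e) := ⟨pt, continuous_pt⟩
  have h1 : ∀ g : FundamentalGroup (DC e) w, FundamentalGroup.map φ w g =
      FundamentalGroup.map (extE φ z hφ) (pt w) (FundamentalGroup.map ι w g) := by
    intro g
    obtain ⟨P, rfl⟩ := Path.Homotopic.Quotient.mk_surjective g
    rfl
  have key : ∀ g h : FundamentalGroup (EP e) (pt w),
      FundamentalGroup.map (extE φ z hφ) (pt w) g * FundamentalGroup.map (extE φ z hφ) (pt w) h =
      FundamentalGroup.map (extE φ z hφ) (pt w) h * FundamentalGroup.map (extE φ z hφ) (pt w) g := by
    intro g h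
    rw [← map_mul, ← map_mul, comm_EP he]
  rw [h1 g, h1 h]
  exact key _ _

end

end Pool.Agent.X325.EC
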