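import Mathlib
import Pool.Agent.X325.EC.Comm
import Pool.Agent.X325.HS.GlueF

/-! The elliptic curve `y² = (x - e₀)(x - e₁)(x - e₂)` glued from two affine charts. -/

set_option autoImplicit false

open Topology Set Filter

namespace Pool.Agent.X325.EC

open Pool.Agent.X325.HS Pool.Agent.Y193.CS Pool.Agent.Y193.FG

/-- the affine chart `y² = (x - e₀)(x - e₁)(x - e₂)` with the coordinates `z = (x, y)` -/
def AE (e : Fin 3 → ℂ) : Set (Fin 2 → ℂ) := {z | z 1 ^ 2 = ∏ i, (z 0 - e i)}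

/-- the chart at infinity `v = (u - e₀ v)(u - e₁ v)(u - e₂ v)` with the coordinates
`z = (u, v) = (x / y, 1 / y)` -/
def BE (e : Fin 3 → ℂ) : Set (Fin 2 → ℂ) := {z | z 1 = ∏ i, (z 0 - e i * z 1)}

/-- the two charts of the elliptic curve -/
def charts (e : Fin 3 → ℂ) : Bool → Set (Fin 2 → ℂ)
  | false => AE e
  | true => BE e

/-- the points of the charts which are identified: `(x, y)` and `(x / y, 1 / y)` -/
def rel (e : Fin 3 → ℂ) : Bool → Bool → Set ((Fin 2 → ℂ) × (Fin 2 → ℂ))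
  | false, true => {z | z.1 ∈ AE e ∧ z.1 1 ≠ 0 ∧ z.2 = ![z.1 0 / z.1 1, 1 / z.1 1]}
  | _, _ => ∅

variable {e : Fin 3 → ℂ}

theorem inf_mem {x y : ℂ} (h : y ^ 2 = ∏ i, (x - e i)) (hy : y ≠ 0) :
    1 / y = ∏ i, (x / y - e i * (1 / y)) := by
  have h1 : ∀ i, x / y - e i * (1 / y) = (x - e i) / y := fun i => by
    field_simp
  rw [Finset.prod_congr rfl (fun i _ => h1 i), Finset.prod_div_distrib, ← h, Finset.prod_const,
    Finset.card_univ, Fintype.card_fin]
  field_simp

theorem rel_mem (i j : Bool) (z : (Fin 2 → ℂ) × (Fin 2 → ℂ)) (hz : z ∈ rel e i j) :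
    z.1 ∈ charts e i ∧ z.2 ∈ charts e j := by
  rcases i <;> rcases j
  · exact hz.elim
  · obtain ⟨h1, h2, h3⟩ := hz
    refine ⟨h1, ?_⟩
    show z.2 1 = ∏ i, (z.2 0 - e i * z.2 1)
    rw [h3]
    exact inf_mem h1 h2
  · exact hz.elim
  · exact hz.elim

theorem algSet_AE (e : Fin 3 → ℂ) : AlgSet (AE e) := by
  have h := AlgSet.zero (φ := fun z : Fin 2 → ℂ => z 1 ^ 2 - ∏ i, (z 0 - e i))
    (PolyF.sub ((PolyF.coord _).pow 2) (PolyF.prod _ (fun i => PolyF.sub (PolyF.coord _)
      (PolyF.const _))))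
  convert h using 1
  ext z
  exact sub_eq_zero.symm

theorem algSet_BE (e : Fin 3 → ℂ) : AlgSet (BE e) := by
  have h := AlgSet.zero (φ := fun z : Fin 2 → ℂ => z 1 - ∏ i, (z 0 - e i * z 1))
    (PolyF.sub (PolyF.coord _) (PolyF.prod _ (fun i => PolyF.sub (PolyF.coord _)
      ((PolyF.const _).mul (PolyF.coord _)))))
  convert h using 1
  ext z
  exact sub_eq_zero.symm

theorem algSet_charts (e : Fin 3 → ℂ) (i : Bool) : AlgSet (charts e i) := by
  rcases i
  · exact algSet_AE e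
  · exact algSet_BE e

/-- the double cover and the affine chart -/
noncomputable def toAE (e : Fin 3 → ℂ) : C(DC e, AE e) :=
  ⟨fun w => ⟨![w.1.1, w.1.2], w.2⟩, by
    refine Continuous.subtype_mk (continuous_pi (fun j => ?_)) _
    fin_cases j
    · exact continuous_fst.comp continuous_subtype_val
    · exact continuous_snd.comp continuous_subtype_val⟩

/-- the affine chart and the double cover -/
noncomputable def ofAE (e : Fin 3 → ℂ) : C(AE e, DC e) :=
  ⟨fun z => ⟨(z.1 0, z.1 1), z.2⟩, Continuous.subtype_mk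
    (((continuous_apply 0).comp continuous_subtype_val).prodMk
      ((continuous_apply 1).comp continuous_subtype_val)) _⟩

theorem toAE_ofAE (z : AE e) : toAE e (ofAE e z) = z := by
  apply Subtype.ext
  funext j
  fin_cases j <;> rfl

theorem isPathConnected_AE (e : Fin 3 → ℂ) : IsPathConnected (AE e) := by
  have h1 : PathConnectedSpace (DC e) :=
    isPathConnected_iff_pathConnectedSpace.mp (isPathConnected_DC (by norm_num) e)
  have h2 : PathConnectedSpace (AE e) :=
    Function.Surjective.pathConnectedSpace (fun z => ⟨ofAE e z, toAE_ofAE z⟩) (toAE e).continuous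
  exact isPathConnected_iff_pathConnectedSpace.mpr h2

/-- the images of the fundamental group of the affine chart under the regular maps of the elliptic
curve are commutative -/
theorem glueImages (he : Function.Injective e) {n : ℕ} (X : Set (CP n))
    {C : ∀ (G : Type) [Group G], Prop}
    (hab : ∀ (G : Type) [Group G], (∀ a b : G, a * b = b * a) → C G) :
    GlueImagesIn X (charts e) (rel e) false C := by
  intro φ hφ y
  apply hab
  let φ₀ : C(AE e, X) := φ false
  let φ₁ : C(BE e, X) := φ true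
  have h0 : (![0, 0] : Fin 2 → ℂ) ∈ BE e := by
    show (0 : ℂ) = ∏ i, (0 - e i * 0)
    simp
  have hc : ∀ (w : DC e), w.1.2 ≠ 0 → ∃ h : (![w.1.1 / w.1.2, 1 / w.1.2] : Fin 2 → ℂ) ∈ BE e,
      φ₀ (toAE e w) = φ₁ ⟨_, h⟩ := by
    intro w hw
    have h1 : (![w.1.1 / w.1.2, 1 / w.1.2] : Fin 2 → ℂ) ∈ BE e := inf_mem w.2 hw
    refine ⟨h1, Subtype.ext ?_⟩
    exact hφ.compat false true (![w.1.1, w.1.2], ![w.1.1 / w.1.2, 1 / w.1.2])
      ⟨w.2, hw, rfl⟩ w.2 h1
  have hlim : Tendsto (φ₀.comp (toAE e)) (comap (fun w : DC e => ‖w.1.1‖) atTop)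
      (𝓝 (φ₁ ⟨_, h0⟩)) := by
    have hne : ∀ᶠ w : DC e in comap (fun w : DC e => ‖w.1.1‖) atTop, w.1.2 ≠ 0 := by
      filter_upwards [eventually_ne e (e 0), eventually_ne e (e 1), eventually_ne e (e 2)]
        with w h1 h2 h3 h4
      have h5 : w.1.2 ^ 2 = (w.1.1 - e 0) * (w.1.1 - e 1) * (w.1.1 - e 2) :=
        (mem_DC_iff _ _).mp w.2
      rw [h4, zero_pow two_ne_zero] at h5
      exact mul_ne_zero (mul_ne_zero h1 h2) h3 h5.symm
    intro U hU
    have h1 := φ₁.continuous.continuousAt.preimage_mem_nhds (x := ⟨_, h0⟩) hU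
    rw [nhds_subtype, mem_comap] at h1
    obtain ⟨V, hV, hVU⟩ := h1
    have h2 : Tendsto (fun w : DC e => (![w.1.1 / w.1.2, 1 / w.1.2] : Fin 2 → ℂ))
        (comap (fun w : DC e => ‖w.1.1‖) atTop) (𝓝 ![0, 0]) := by
      rw [tendsto_pi_nhds]
      intro j
      have h3 := tendsto_chart e
      rw [Prod.tendsto_iff] at h3
      fin_cases j
      · exact h3.1
      · exact h3.2
    rw [mem_map]
    filter_upwards [h2 hV, hne] with w hw hw'
    obtain ⟨h3, h4⟩ := hc w hw'
    show φ₀ (toAE e w) ∈ U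
    rw [h4]
    exact hVU (show (⟨_, h3⟩ : BE e).1 ∈ V from hw)
  rintro ⟨_, a, rfl⟩ ⟨_, b, rfl⟩
  apply Subtype.ext
  show FundamentalGroup.map φ₀ y a * FundamentalGroup.map φ₀ y b =
    FundamentalGroup.map φ₀ y b * FundamentalGroup.map φ₀ y a
  have h5 := comm_cubic he (φ₀.comp (toAE e)) _ hlim (ofAE e y)
  have hcomp : ∀ g : FundamentalGroup (AE e) y,
      FundamentalGroup.map (φ₀.comp (toAE e)) (ofAE e y) (FundamentalGroup.map (ofAE e) y g) =
      FundamentalGroup.map ((φ₀.comp (toAE e)).comp (ofAE e)) y g := by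
    intro g
    obtain ⟨P, rfl⟩ := Path.Homotopic.Quotient.mk_surjective g
    rfl
  have hid : (φ₀.comp (toAE e)).comp (ofAE e) = φ₀ := by
    ext z
    show (φ₀ (toAE e (ofAE e z))).1 = (φ₀ z).1
    rw [toAE_ofAE]
  have h6 := h5 (FundamentalGroup.map (ofAE e) y a) (FundamentalGroup.map (ofAE e) y b)
  rw [hcomp, hcomp] at h6
  have gen : ∀ (ψ : C(AE e, X)), ψ = φ₀ →
      FundamentalGroup.map ψ y a * FundamentalGroup.map ψ y b =
        FundamentalGroup.map ψ y b * FundamentalGroup.map ψ y a →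
      FundamentalGroup.map φ₀ y a * FundamentalGroup.map φ₀ y b =
        FundamentalGroup.map φ₀ y b * FundamentalGroup.map φ₀ y a := by
    rintro _ rfl h
    exact h
  exact gen _ hid h6

end Pool.Agent.X325.EC
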