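import Mathlib
import Pool.Agent.X325.EC.Chart
import Pool.Agent.X316.EC.Main

/-! Varieties connected by elliptic curves of countably many isomorphism classes. -/

set_option autoImplicit false

open Topology Set MvPolynomial

namespace Pool.Agent.X325.EC

open Pool.Agent.X325.HS Pool.Agent.Y193.CS Pool.Agent.Y193.FG Pool.Agent.X316.EC

/-- `x` and `x'` are in the image of the elliptic curve
`Y² Z = (X - e₀ Z) (X - e₁ Z) (X - e₂ Z)` under a regular map to `X` -/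
def EllLinkedBy {n : ℕ} (e : Fin 3 → ℂ) (X : Set (CP n)) (x x' : CP n) : Prop :=
  ∃ φ : Ell e → CP n, IsRegularP (Ell e) φ ∧ (∀ P, φ P ∈ X) ∧ x ∈ range φ ∧ x' ∈ range φ

section

variable {n : ℕ} {e : Fin 3 → ℂ}

theorem B_ne (u v : ℂ) : (![u, 1, v] : Fin 3 → ℂ) ≠ 0 := fun h => by simpa using congrFun h 1

theorem BE_mem {z : Fin 2 → ℂ} (h : z ∈ BE e) : CP.mk ![z 0, 1, z 1] (B_ne _ _) ∈ Ell e := by
  have h' : z 1 = ∏ i, (z 0 - e i * z 1) := h
  rw [Fin.prod_univ_three] at h'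
  rw [mem_Ell]
  simp only [cF, Matrix.cons_val_zero, Matrix.cons_val_one, Matrix.cons_val]
  linear_combination h'

/-- the restriction of a map to the chart at infinity -/
noncomputable def resB (φ : Ell e → CP n) (z : BE e) : CP n :=
  φ ⟨CP.mk ![z.1 0, 1, z.1 1] (B_ne _ _), BE_mem z.2⟩

/-- substitution of the coordinates at infinity -/
noncomputable def deh' (P : MvPolynomial (Fin 3) ℂ) : MvPolynomial (Fin 2) ℂ :=
  aeval (![X 0, 1, X 1] : Fin 3 → MvPolynomial (Fin 2) ℂ) P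

theorem eval_deh' (z : Fin 2 → ℂ) (P : MvPolynomial (Fin 3) ℂ) :
    eval z (deh' P) = eval ![z 0, 1, z 1] P := by
  have h1 : eval z (deh' P) = eval (fun i => eval z ((![X 0, 1, X 1] :
      Fin 3 → MvPolynomial (Fin 2) ℂ) i)) P := MvPolynomial.eval₂Hom_bind₁ _ _ _ _
  rw [h1]
  congr 2
  funext i
  fin_cases i <;> simp

theorem regular_resB {φ : Ell e → CP n} (hφ : IsRegularP (Ell e) φ) :
    IsRegularMap (BE e) (resB φ) := by
  obtain ⟨s, d, f, hf, hφ⟩ := hφ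
  refine ⟨s, fun a i => deh' (f a i), fun z => ?_⟩
  have he : ∀ a, (fun i => eval z.1 (deh' (f a i))) = fun i => eval ![z.1 0, 1, z.1 1] (f a i) :=
    fun a => funext fun i => eval_deh' _ _
  obtain ⟨h1, h2⟩ := hφ ![z.1 0, 1, z.1 1] (B_ne _ _) (BE_mem z.2)
  constructor
  · obtain ⟨a, ha⟩ := h1
    exact ⟨a, by rw [he]; exact ha⟩
  · intro a h
    have h' : (fun i => eval ![z.1 0, 1, z.1 1] (f a i)) ≠ 0 := by
      rw [← he]
      exact h
    refine (h2 a h').trans ?_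
    exact mk_eq_mk.mpr ⟨1, one_ne_zero, by rw [one_smul]; exact (he a).symm⟩

/-- the two restrictions -/
noncomputable def resC (φ : Ell e → CP n) : ∀ i, charts e i → CP n
  | false => resA φ
  | true => resB φ

theorem glueMap_res {φ : Ell e → CP n} (hφ : IsRegularP (Ell e) φ) :
    IsGlueMap (charts e) (rel e) (resC φ) := by
  refine ⟨fun i => ?_, fun i j z hz h1 h2 => ?_⟩
  · rcases i
    · exact regular_resA hφ
    · exact regular_resB hφ
  · rcases i <;> rcases j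
    · exact hz.elim
    · obtain ⟨k1, k2, k3⟩ := hz
      show φ _ = φ _
      congr 1
      apply Subtype.ext
      have k4 : z.2 0 = z.1 0 / z.1 1 := by rw [k3]; rfl
      have k5 : z.2 1 = 1 / z.1 1 := by rw [k3]; rfl
      refine mk_eq_mk.mpr ⟨z.1 1, k2, ?_⟩
      funext i
      fin_cases i
      · show z.1 0 = z.1 1 * z.2 0
        rw [k4]
        field_simp
      · show z.1 1 = z.1 1 * 1
        rw [mul_one]
      · show (1 : ℂ) = z.1 1 * z.2 1
        rw [k5]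
        field_simp
    · exact hz.elim
    · exact hz.elim

theorem glueLinked_res {X : Set (CP n)} {φ : Ell e → CP n} (hφ : IsRegularP (Ell e) φ)
    (hX : ∀ P, φ P ∈ X) (z z' : AY e) :
    GlueLinked X (charts e) (rel e) false (resA φ z) (resA φ z') := by
  refine ⟨resC φ, glueMap_res hφ, fun i y => ?_, ⟨z, rfl⟩, ⟨z', rfl⟩⟩
  rcases i
  · exact hX _
  · exact hX _

/-- two points of an elliptic curve can be moved to its affine part -/
theorem ell_aff' {X : Set (CP n)} {x x' : CP n} (he : Function.Injective e)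
    (h : EllLinkedBy e X x x') :
    ∃ (b : Bool) (φ : Ell (if b then e ∘ Equiv.swap 0 1 else e) → CP n),
      IsRegularP (Ell (if b then e ∘ Equiv.swap 0 1 else e)) φ ∧ (∀ P, φ P ∈ X) ∧
      ∃ z z' : AY (if b then e ∘ Equiv.swap 0 1 else e), resA φ z = x ∧ resA φ z' = x' := by
  obtain ⟨φ, hφ, hX, ⟨P, rfl⟩, ⟨P', rfl⟩⟩ := h
  have hd := inj_dist he
  by_cases hO : P.1 ≠ CP.mk ![0, 1, 0] O_ne ∧ P'.1 ≠ CP.mk ![0, 1, 0] O_ne
  · obtain ⟨z, hz⟩ := affine_of P hO.1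
    obtain ⟨z', hz'⟩ := affine_of P' hO.2
    exact ⟨false, φ, hφ, hX, z, z', congrArg φ hz.symm, congrArg φ hz'.symm⟩
  · -- the case of the first branch point
    have main : ∀ (e : Fin 3 → ℂ) (φ : Ell e → CP n) (P P' : Ell e), (∀ i j, i ≠ j → e i ≠ e j) →
        IsRegularP (Ell e) φ → (∀ P, φ P ∈ X) → P.1 ≠ CP.mk ![e 0, 0, 1] (T_ne0 _ _) →
        P'.1 ≠ CP.mk ![e 0, 0, 1] (T_ne0 _ _) → ∃ (ψ : Ell e → CP n),
          IsRegularP (Ell e) ψ ∧ (∀ P, ψ P ∈ X) ∧
          ∃ z z' : AY e, resA ψ z = φ P ∧ resA ψ z' = φ P' := by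
      intro e φ P P' hd hφ hX hP hP'
      obtain ⟨κ, hκ⟩ := exists_kap hd
      have hne : ∀ P : Ell e, P.1 ≠ CP.mk ![e 0, 0, 1] (T_ne0 _ _) →
          (κ P).1 ≠ CP.mk ![0, 1, 0] O_ne := by
        intro P hP h
        apply hP
        have h1 : κ P = ⟨_, O_mem⟩ := Subtype.ext h
        have h2 := kap_kap hd hκ P
        rw [h1] at h2
        rw [← h2]
        exact kap_O hd hκ
      obtain ⟨z, hz⟩ := affine_of (κ P) (hne P hP)
      obtain ⟨z', hz'⟩ := affine_of (κ P') (hne P' hP')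
      refine ⟨fun P => φ (κ P), regular_kap hd hκ hφ, fun P => hX _, z, z', ?_, ?_⟩
      · show φ (κ ⟨_, _⟩) = φ P
        rw [← hz, kap_kap hd hκ]
      · show φ (κ ⟨_, _⟩) = φ P'
        rw [← hz', kap_kap hd hκ]
    have hO0 : ∀ c : ℂ, CP.mk ![0, 1, 0] O_ne ≠ CP.mk ![c, 0, 1] (T_ne0 _ _) := by
      intro c h
      obtain ⟨a, ha, h1⟩ := mk_eq_mk.mp h
      have := congrFun h1 1
      simp at this
    have h01 : CP.mk ![e 0, 0, 1] (T_ne0 _ _) ≠ CP.mk ![e 1, 0, 1] (T_ne0 _ _) := by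
      intro h
      obtain ⟨a, ha, h1⟩ := mk_eq_mk.mp h
      have h2 := congrFun h1 2
      have h0 := congrFun h1 0
      simp at h0 h2
      rw [← h2, one_mul] at h0
      exact hd 0 1 (by decide) h0
    by_cases hT : P.1 ≠ CP.mk ![e 0, 0, 1] (T_ne0 _ _) ∧ P'.1 ≠ CP.mk ![e 0, 0, 1] (T_ne0 _ _)
    · exact ⟨false, main e φ P P' hd hφ hX hT.1 hT.2⟩
    · -- the case of the second branch point
      let e' : Fin 3 → ℂ := e ∘ Equiv.swap 0 1
      have hE : Ell e = Ell e' := by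
        have h1 : ∀ v : Fin 3 → ℂ, ∏ i, (v 0 - e' i * v 2) = ∏ i, (v 0 - e i * v 2) := fun v =>
          Equiv.prod_comp (Equiv.swap 0 1) (fun i => v 0 - e i * v 2)
        unfold Ell
        simp only [h1]
      have he' : e' 0 = e 1 := by simp [e']
      have hd' : ∀ i j, i ≠ j → e' i ≠ e' j := fun i j hij h =>
        hij ((he.comp (Equiv.swap 0 1).injective) h)
      have hP1 : P.1 ≠ CP.mk ![e 1, 0, 1] (T_ne0 _ _) ∧ P'.1 ≠ CP.mk ![e 1, 0, 1] (T_ne0 _ _) := by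
        rw [not_and_or, not_not, not_not] at hO hT
        rcases hO with hO | hO <;> rcases hT with hT | hT
        · exact absurd (hO.symm.trans hT) (hO0 _)
        · rw [hO, hT]
          exact ⟨hO0 _, h01⟩
        · rw [hO, hT]
          exact ⟨h01, hO0 _⟩
        · exact absurd (hO.symm.trans hT) (hO0 _)
      have gen : ∀ (S : Set (CP 2)) (_ : Ell e = S), ∃ ψ : S → CP n, IsRegularP S ψ ∧
          (∀ P, ψ P ∈ X) ∧ ∃ Q Q' : S, Q.1 = P.1 ∧ Q'.1 = P'.1 ∧ ψ Q = φ P ∧ ψ Q' = φ P' := by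
        rintro S rfl
        exact ⟨φ, hφ, hX, P, P', rfl, rfl, rfl, rfl⟩
      obtain ⟨ψ, h1, h2, Q, Q', h3, h4, h5, h6⟩ := gen _ hE
      rw [← h5, ← h6]
      refine ⟨true, main e' ψ Q Q' hd' h1 h2 ?_ ?_⟩
      · rw [h3]
        simp only [he']
        exact hP1.1
      · rw [h4]
        simp only [he']
        exact hP1.2

variable {ι κ : Type} [Fintype κ]
  {p : ι → MvPolynomial (Fin (n + 1)) ℂ} {q : κ → MvPolynomial (Fin (n + 1)) ℂ}

/-- **Elliptic curves of countably many isomorphism classes.** -/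
theorem main_cnt (𝒱 : PClass)
    (hab : ∀ (G : Type) [Group G], (∀ a b : G, a * b = b * a) → 𝒱.C G)
    (hp : ∀ i, ∃ d, (p i).IsHomogeneous d)
    (hq : ∀ j, ∃ d, (q j).IsHomogeneous d) (hs : IsSmooth (QP p q)) (hc : IsConnected (QP p q))
    {K₀ : Type} [Countable K₀] {r₀ : K₀ → ℕ} {Y₀ : ∀ k, Set (Fin (r₀ k) → ℂ)}
    (hYa₀ : ∀ k, IsAlgebraic' (Y₀ k)) (hYc₀ : ∀ k, IsPathConnected (Y₀ k))
    (hY₀ : ImagesIn (QP p q) Y₀ 𝒱.C)
    {K : Type} [Countable K] {e : K → Fin 3 → ℂ} (he : ∀ k, Function.Injective (e k))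
    {x₀ : CP n} (hx₀ : x₀ ∈ QP p q)
    (hthin : ¬ IsThin (QP p q) {x | Relation.ReflTransGen
      (fun x x' => MixedLinked p q Y₀ x x' ∨ ∃ k, EllLinkedBy (e k) (QP p q) x x') x₀ x})
    (x : QP p q) : Virtually 𝒱.C (FundamentalGroup (QP p q) x) := by
  let e' : K × Bool → Fin 3 → ℂ := fun k => if k.2 then e k.1 ∘ Equiv.swap 0 1 else e k.1
  have he' : ∀ k, Function.Injective (e' k) := by
    rintro ⟨k, b⟩
    rcases b
    · exact he k
    · exact (he k).comp (Equiv.swap 0 1).injective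
  refine main_glue 𝒱 hab hp hq hs hc hYa₀ hYc₀ (K := K × Bool) (I := fun _ => Bool)
    (r := fun _ => 2) (Y := fun k => charts (e' k)) (R := fun k => rel (e' k))
    (i₀ := fun _ => false) (fun k i => algSet_charts (e' k) i)
    (fun k => isPathConnected_AE (e' k)) (fun k => rel_mem) hY₀
    (fun k => glueImages (he' k) _ hab) hx₀ (fun hthin' => hthin ?_) x
  obtain ⟨G, h1, h2, h3⟩ := hthin'
  refine ⟨G, h1, h2, fun v hv hv' => h3 v hv ?_⟩
  refine Relation.ReflTransGen.mono ?_ _ _ hv'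
  rintro x x' (h | ⟨k, h⟩)
  · exact Or.inl h
  · obtain ⟨b, φ, hφ, hX, z, z', rfl, rfl⟩ := ell_aff' (he k) h
    exact Or.inr ⟨(k, b), glueLinked_res hφ hX z z'⟩

end

end Pool.Agent.X325.EC
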