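import Mathlib
import Pool.Agent.X325.EC.Cov
import Pool.Agent.W378.F4C

/-! The fundamental group of the affine curve `y² = ∏ (x - e i)` is finitely generated. -/

set_option autoImplicit false

open Topology Set Filter unitInterval

namespace Pool.Agent.X325.EC

section charts

variable {Y : Type} [TopologicalSpace Y] {V : Set ℂ} {J : ℂ → Y}

theorem homotopic_of_chart (hV : Convex ℝ V) (hJ : ContinuousOn J V) {D : Set Y} (r : Y → ℂ)
    (hr : ContinuousOn r D) (hrV : ∀ y ∈ D, r y ∈ V) (hJr : ∀ y ∈ D, J (r y) = y) {t t' : Y}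
    (γ γ' : Path t t') (h : ∀ τ, γ τ ∈ D) (h' : ∀ τ, γ' τ ∈ D) : γ.Homotopic γ' := by
  have hc : Continuous (fun x : I × I =>
      (1 - (x.1 : ℝ)) • r (γ x.2) + (x.1 : ℝ) • r (γ' x.2)) := by
    have h1 : Continuous (fun x : I × I => r (γ x.2)) :=
      hr.comp_continuous (γ.continuous.comp continuous_snd) (fun x => h _)
    have h2 : Continuous (fun x : I × I => r (γ' x.2)) :=
      hr.comp_continuous (γ'.continuous.comp continuous_snd) (fun x => h' _)
    exact ((continuous_const.sub (continuous_subtype_val.comp continuous_fst)).smul h1).add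
      ((continuous_subtype_val.comp continuous_fst).smul h2)
  have hmem : ∀ x : I × I, (1 - (x.1 : ℝ)) • r (γ x.2) + (x.1 : ℝ) • r (γ' x.2) ∈ V := by
    intro x
    exact hV (hrV _ (h _)) (hrV _ (h' _)) (by linarith [x.1.2.2]) x.1.2.1 (by ring)
  refine ⟨{ toFun := fun x => J ((1 - (x.1 : ℝ)) • r (γ x.2) + (x.1 : ℝ) • r (γ' x.2))
            continuous_toFun := hJ.comp_continuous hc hmem
            map_zero_left := fun τ => ?_
            map_one_left := fun τ => ?_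
            prop' := fun s τ hτ => ?_ }⟩
  · show J ((1 - ((0 : I) : ℝ)) • r (γ τ) + ((0 : I) : ℝ) • r (γ' τ)) = γ τ
    simp only [Icc.coe_zero, sub_zero, one_smul, zero_smul, add_zero]
    exact hJr _ (h _)
  · show J ((1 - ((1 : I) : ℝ)) • r (γ τ) + ((1 : I) : ℝ) • r (γ' τ)) = γ' τ
    simp only [Icc.coe_one, sub_self, zero_smul, one_smul, zero_add]
    exact hJr _ (h' _)
  · show J ((1 - (s : ℝ)) • r (γ τ) + (s : ℝ) • r (γ' τ)) = γ τ
    have h1 : γ' τ = γ τ := by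
      rcases hτ with rfl | rfl
      · rw [γ.source, γ'.source]
      · rw [γ.target, γ'.target]
    rw [h1, ← add_smul, sub_add_cancel, one_smul]
    exact hJr _ (h _)

theorem joinedIn_of_chart (hV : Convex ℝ V) (hJ : ContinuousOn J V) {E : Set Y}
    (hE : ∀ z ∈ V, J z ∈ E) {a b : ℂ} (ha : a ∈ V) (hb : b ∈ V) : JoinedIn E (J a) (J b) := by
  obtain ⟨γ, hγ⟩ := (hV.isPathConnected ⟨a, ha⟩).joinedIn a ha b hb
  refine ⟨⟨⟨fun t => J (γ t), hJ.comp_continuous γ.continuous hγ⟩, ?_, ?_⟩, fun t => hE _ (hγ t)⟩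
  · show J (γ 0) = J a
    rw [γ.source]
  · show J (γ 1) = J b
    rw [γ.target]

end charts

section sheets

variable {m : ℕ} {e : Fin m → ℂ}

/-- the four directions -/
noncomputable def uu : Fin 4 → ℂ := ![1, -1, -Complex.I, Complex.I]

theorem uu_ne (k : Fin 4) : uu k ≠ 0 := by fin_cases k <;> simp [uu]

theorem exists_dir {z : ℂ} (h : z ≠ 0) : ∃ k, 0 < (uu k * z).re := by
  by_contra hn
  push Not at hn
  apply h
  have h0 := hn 0
  have h1 := hn 1
  have h2 := hn 2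
  have h3 := hn 3
  simp [uu] at h0 h1 h2 h3
  exact Complex.ext (le_antisymm h0 h1) (le_antisymm h2 h3)

/-- the convex sets -/
def KK (e : Fin m → ℂ) (h : Fin m → Fin 4) : Set ℂ := {z | ∀ i, 0 < (uu (h i) * (z - e i)).re}

theorem isOpen_KK (h : Fin m → Fin 4) : IsOpen (KK e h) := by
  have : KK e h = ⋂ i, {z | 0 < (uu (h i) * (z - e i)).re} := by
    ext z
    simp [KK]
  rw [this]
  refine isOpen_iInter_of_finite (fun i => isOpen_lt continuous_const ?_)
  exact Complex.continuous_re.comp (by fun_prop)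

theorem convex_KK (h : Fin m → Fin 4) : Convex ℝ (KK e h) := by
  intro z hz z' hz' a b ha hb hab i
  have h1 : uu (h i) * (a • z + b • z' - e i) =
      (a : ℂ) * (uu (h i) * (z - e i)) + (b : ℂ) * (uu (h i) * (z' - e i)) := by
    have h2 : (a : ℂ) + b = 1 := by exact_mod_cast hab
    rw [Complex.real_smul, Complex.real_smul]
    linear_combination (-(uu (h i) * e i)) * (1 - (a + b : ℂ)) + (uu (h i) * e i) *
      (1 - (a : ℂ) - b) - (uu (h i) * e i) * h2 + (uu (h i) * e i) * h2 +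
      (uu (h i) * e i) * h2
  rw [h1, Complex.add_re, Complex.re_ofReal_mul, Complex.re_ofReal_mul]
  have h3 := hz i
  have h4 := hz' i
  rcases ha.eq_or_lt with rfl | ha'
  · have hb1 : b = 1 := by linarith
    rw [hb1]
    linarith
  · have := mul_pos ha' h3
    have := mul_nonneg hb h4.le
    linarith

/-- the square root of the polynomial on these sets -/
noncomputable def SS (e : Fin m → ℂ) (h : Fin m → Fin 4) (z : ℂ) : ℂ :=
  ∏ i, (sq (uu (h i))⁻¹ * sq (uu (h i) * (z - e i)))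

theorem SS_sq (h : Fin m → Fin 4) (z : ℂ) : SS e h z ^ 2 = ∏ i, (z - e i) := by
  unfold SS
  rw [← Finset.prod_pow]
  refine Finset.prod_congr rfl (fun i _ => ?_)
  rw [mul_pow, sq_sq, sq_sq, ← mul_assoc, inv_mul_cancel₀ (uu_ne _), one_mul]

theorem SS_cont (h : Fin m → Fin 4) : ContinuousOn (SS e h) (KK e h) := by
  unfold SS
  refine continuousOn_finsetProd _ (fun i _ => continuousOn_const.mul ?_)
  intro z hz
  have hc : Continuous (fun z => uu (h i) * (z - e i)) := by fun_prop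
  exact (Tendsto.comp (continuousAt_sq (hz i)) (hc.tendsto z)).mono_left nhdsWithin_le_nhds

theorem SS_ne (h : Fin m → Fin 4) {z : ℂ} (hz : z ∈ KK e h) : SS e h z ≠ 0 := by
  unfold SS
  refine Finset.prod_ne_zero_iff.mpr (fun i _ => mul_ne_zero (sq_ne_zero (inv_ne_zero (uu_ne _)))
    (sq_ne_zero ?_))
  intro h0
  have := hz i
  rw [h0] at this
  simp at this

/-- the two signs -/
noncomputable def sgn (b : Bool) : ℂ := if b then 1 else -1

theorem sgn_sq (b : Bool) : sgn b ^ 2 = 1 := by cases b <;> simp [sgn]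

theorem sgn_ne (b : Bool) : sgn b ≠ 0 := by cases b <;> simp [sgn]

/-- the section -/
noncomputable def JJ (e : Fin m → ℂ) (h : Fin m → Fin 4) (b : Bool) (z : ℂ) : DC e :=
  ⟨(z, sgn b * SS e h z), by
    show (sgn b * SS e h z) ^ 2 = _
    rw [mul_pow, sgn_sq, one_mul]
    exact SS_sq h z⟩

theorem JJ_cont (h : Fin m → Fin 4) (b : Bool) : ContinuousOn (JJ e h b) (KK e h) := by
  rw [continuousOn_iff_continuous_restrict]
  refine Continuous.subtype_mk (Continuous.prodMk continuous_subtype_val ?_) _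
  exact continuous_const.mul (continuousOn_iff_continuous_restrict.mp (SS_cont h))

/-- the sheets -/
def sheet (e : Fin m → ℂ) (h : Fin m → Fin 4) (b : Bool) : Set (DC e) :=
  {w | w.1.1 ∈ KK e h ∧ w.1.2 = sgn b * SS e h w.1.1}

theorem JJ_mem (h : Fin m → Fin 4) (b : Bool) {z : ℂ} (hz : z ∈ KK e h) :
    JJ e h b z ∈ sheet e h b := ⟨hz, rfl⟩

theorem JJ_eq {h : Fin m → Fin 4} {b : Bool} {w : DC e} (hw : w ∈ sheet e h b) :
    JJ e h b w.1.1 = w := Subtype.ext (Prod.ext rfl hw.2.symm)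

theorem isOpen_sheet (h : Fin m → Fin 4) (b : Bool) : IsOpen (sheet e h b) := by
  have hs : IsOpen {w : DC e | w.1.1 ∈ KK e h} :=
    (isOpen_KK h).preimage (f := fun w : DC e => w.1.1) (by fun_prop)
  have hf : ContinuousOn (fun w : DC e => sgn b * (w.1.2 * (SS e h w.1.1)⁻¹))
      {w : DC e | w.1.1 ∈ KK e h} := by
    refine continuousOn_const.mul (ContinuousOn.mul (by fun_prop) (ContinuousOn.inv₀ ?_
      (fun w hw => SS_ne h hw)))
    exact (SS_cont h).comp (by fun_prop) (fun w hw => hw)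
  have h1 := hf.isOpen_inter_preimage hs (isOpen_lt continuous_const Complex.continuous_re :
    IsOpen {z : ℂ | (0 : ℝ) < z.re})
  convert h1 using 1
  ext w
  constructor
  · rintro ⟨hw, hw'⟩
    refine ⟨hw, ?_⟩
    show 0 < (sgn b * (w.1.2 * (SS e h w.1.1)⁻¹)).re
    have h2 : sgn b * (w.1.2 * (SS e h w.1.1)⁻¹) = 1 := by
      rw [hw', mul_assoc, mul_inv_cancel₀ (SS_ne h hw), mul_one, ← pow_two (sgn b), sgn_sq]
    rw [h2]
    norm_num
  · rintro ⟨hw, hw'⟩
    refine ⟨hw, ?_⟩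
    have hw'' : 0 < (sgn b * (w.1.2 * (SS e h w.1.1)⁻¹)).re := hw'
    have h2 : w.1.2 ^ 2 = (sgn b * SS e h w.1.1) ^ 2 := by
      rw [mul_pow, sgn_sq, one_mul, SS_sq]
      exact w.2
    rcases sq_eq_sq_iff_eq_or_eq_neg.mp h2 with h3 | h3
    · exact h3
    · exfalso
      have h4 : sgn b * (w.1.2 * (SS e h w.1.1)⁻¹) = -1 := by
        rw [h3, neg_mul, mul_assoc, mul_inv_cancel₀ (SS_ne h hw), mul_one, mul_neg, ← pow_two (sgn b),
          sgn_sq]
      rw [h4] at hw''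
      norm_num at hw''

theorem sheet_homotopic (h : Fin m → Fin 4) (b : Bool) {t t' : DC e} (γ γ' : Path t t')
    (h1 : ∀ τ, γ τ ∈ sheet e h b) (h2 : ∀ τ, γ' τ ∈ sheet e h b) : γ.Homotopic γ' :=
  homotopic_of_chart (convex_KK h) (JJ_cont h b) (fun w => w.1.1) (by fun_prop)
    (fun w hw => hw.1) (fun w hw => JJ_eq hw) γ γ' h1 h2

theorem sheet_joined (h h' : Fin m → Fin 4) (b b' : Bool) {t t' : DC e}
    (ht : t ∈ sheet e h b ∩ sheet e h' b') (ht' : t' ∈ sheet e h b ∩ sheet e h' b') :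
    JoinedIn (sheet e h b ∩ sheet e h' b') t t' := by
  have hV := (convex_KK (e := e) h).inter (convex_KK (e := e) h')
  have hc1 : ContinuousOn (fun z => sgn b * SS e h z) (KK e h ∩ KK e h') :=
    continuousOn_const.mul ((SS_cont h).mono inter_subset_left)
  have hc2 : ContinuousOn (fun z => sgn b' * SS e h' z) (KK e h ∩ KK e h') :=
    continuousOn_const.mul ((SS_cont h').mono inter_subset_right)
  have h1 : EqOn (fun z => sgn b * SS e h z) (fun z => sgn b' * SS e h' z)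
      (KK e h ∩ KK e h') := by
    rcases hV.isPreconnected.eq_or_eq_neg_of_sq_eq hc1 hc2 (fun z _ => by
      show (sgn b * SS e h z) ^ 2 = (sgn b' * SS e h' z) ^ 2
      rw [mul_pow, mul_pow, sgn_sq, sgn_sq, SS_sq, SS_sq])
      (fun {z} hz => mul_ne_zero (sgn_ne _) (SS_ne h' hz.2)) with h2 | h2
    · exact h2
    · exfalso
      have h3 : sgn b * SS e h t.1.1 = -(sgn b' * SS e h' t.1.1) := h2 ⟨ht.1.1, ht.2.1⟩
      rw [← ht.1.2, ← ht.2.2] at h3
      have h4 : t.1.2 = 0 := self_eq_neg.mp h3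
      have h5 := ht.1.2
      rw [h4] at h5
      exact mul_ne_zero (sgn_ne _) (SS_ne h ht.1.1) h5.symm
  have h2 := joinedIn_of_chart (E := sheet e h b ∩ sheet e h' b') hV
    ((JJ_cont h b).mono inter_subset_left) (fun z hz => ⟨JJ_mem h b hz.1, hz.2, h1 hz⟩)
    (a := t.1.1) (b := t'.1.1) ⟨ht.1.1, ht.2.1⟩ ⟨ht'.1.1, ht'.2.1⟩
  rwa [JJ_eq ht.1, JJ_eq ht'.1] at h2

end sheets

section discs

variable {m : ℕ} {e : Fin m → ℂ} {ρ : ℝ}

/-- the square root of the other factors near a branch point -/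
noncomputable def gi (e : Fin m → ℂ) (i : Fin m) (ζ : ℂ) : ℂ :=
  ∏ j ∈ Finset.univ.erase i, (sq (e i - e j) * sq (1 + ζ / (e i - e j)))

theorem dif_ne (hρ : 0 < ρ) (hs : Sep ρ e) {i j : Fin m} (hij : j ≠ i) : e i - e j ≠ 0 := by
  intro h0
  have h1 := hs i j hij.symm
  rw [h0, norm_zero] at h1
  linarith

theorem gi_sq (hρ : 0 < ρ) (hs : Sep ρ e) (i : Fin m) (ζ : ℂ) :
    ζ * gi e i ζ ^ 2 = ∏ j, (e i + ζ - e j) := by
  rw [← Finset.mul_prod_erase Finset.univ _ (Finset.mem_univ i), add_sub_cancel_left]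
  congr 1
  unfold gi
  rw [← Finset.prod_pow]
  refine Finset.prod_congr rfl (fun j hj => ?_)
  have h0 := dif_ne hρ hs (Finset.ne_of_mem_erase hj)
  rw [mul_pow, sq_sq, sq_sq]
  field_simp
  ring

theorem gi_re (hρ : 0 < ρ) (hs : Sep ρ e) {i j : Fin m} (hij : j ≠ i) {ζ : ℂ}
    (hζ : ‖ζ‖ < ρ / 2) : 0 < (1 + ζ / (e i - e j)).re := by
  have h0 := hs i j hij.symm
  have h1 : 0 < ‖e i - e j‖ := lt_of_lt_of_le hρ h0
  have h2 : ‖ζ / (e i - e j)‖ < 1 := by
    rw [norm_div, div_lt_one h1]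
    linarith
  have h3 := (abs_le.mp (Complex.abs_re_le_norm (ζ / (e i - e j)))).1
  rw [Complex.add_re, Complex.one_re]
  linarith

theorem gi_cont (hρ : 0 < ρ) (hs : Sep ρ e) (i : Fin m) :
    ContinuousOn (gi e i) {ζ | ‖ζ‖ < ρ / 2} := by
  unfold gi
  refine continuousOn_finsetProd _ (fun j hj => continuousOn_const.mul ?_)
  intro ζ hζ
  have hc : Continuous (fun ζ => 1 + ζ / (e i - e j)) := by fun_prop
  exact (Tendsto.comp (continuousAt_sq (gi_re hρ hs (Finset.ne_of_mem_erase hj) hζ))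
    (hc.tendsto ζ)).mono_left nhdsWithin_le_nhds

theorem gi_ne (hρ : 0 < ρ) (hs : Sep ρ e) (i : Fin m) {ζ : ℂ} (hζ : ‖ζ‖ < ρ / 2) :
    gi e i ζ ≠ 0 := by
  unfold gi
  refine Finset.prod_ne_zero_iff.mpr (fun j hj => mul_ne_zero
    (sq_ne_zero (dif_ne hρ hs (Finset.ne_of_mem_erase hj))) (sq_ne_zero ?_))
  intro h0
  have := gi_re hρ hs (Finset.ne_of_mem_erase hj) hζ
  rw [h0] at this
  simp at this

/-- the disc around a branch point -/
def disc (e : Fin m → ℂ) (ρ : ℝ) (i : Fin m) : Set (DC e) := {w | ‖w.1.1 - e i‖ < ρ / 2}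

theorem isOpen_disc (ρ : ℝ) (i : Fin m) : IsOpen (disc e ρ i) :=
  isOpen_lt (by fun_prop) continuous_const

/-- the convex parameter disc -/
def VV (ρ : ℝ) : Set ℂ := Metric.ball 0 (Real.sqrt (ρ / 2))

theorem mem_VV (hρ : 0 < ρ) (s : ℂ) : s ∈ VV ρ ↔ ‖s ^ 2‖ < ρ / 2 := by
  unfold VV
  rw [mem_ball_zero_iff, norm_pow, Real.lt_sqrt (norm_nonneg _)]

/-- the parametrisation of the disc -/
noncomputable def JD (hρ : 0 < ρ) (hs : Sep ρ e) (i : Fin m) (s : ℂ) : DC e :=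
  ⟨(e i + s ^ 2, s * gi e i (s ^ 2)), by
    show (s * gi e i (s ^ 2)) ^ 2 = _
    rw [mul_pow]
    exact gi_sq hρ hs i (s ^ 2)⟩

theorem JD_cont (hρ : 0 < ρ) (hs : Sep ρ e) (i : Fin m) : ContinuousOn (JD hρ hs i) (VV ρ) := by
  rw [continuousOn_iff_continuous_restrict]
  refine Continuous.subtype_mk (Continuous.prodMk (by fun_prop) ?_) _
  refine continuous_subtype_val.mul ?_
  exact (gi_cont hρ hs i).comp_continuous (f := fun s : VV ρ => s.1 ^ 2) (by fun_prop)
    (fun s => (mem_VV hρ _).mp s.2)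

/-- the inverse -/
noncomputable def rD (e : Fin m → ℂ) (i : Fin m) (w : DC e) : ℂ :=
  w.1.2 * (gi e i (w.1.1 - e i))⁻¹

theorem rD_cont (hρ : 0 < ρ) (hs : Sep ρ e) (i : Fin m) :
    ContinuousOn (rD e i) (disc e ρ i) := by
  unfold rD
  refine ContinuousOn.mul (by fun_prop) (ContinuousOn.inv₀ ?_ (fun w hw => gi_ne hρ hs i hw))
  exact (gi_cont hρ hs i).comp (f := fun w : DC e => w.1.1 - e i) (by fun_prop) (fun w hw => hw)

theorem rD_sq (hρ : 0 < ρ) (hs : Sep ρ e) (i : Fin m) {w : DC e} (hw : w ∈ disc e ρ i) :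
    rD e i w ^ 2 = w.1.1 - e i := by
  have h1 : w.1.2 ^ 2 = ∏ j, (w.1.1 - e j) := w.2
  have h2 := gi_sq hρ hs i (w.1.1 - e i)
  have h3 : (∏ j, (e i + (w.1.1 - e i) - e j)) = ∏ j, (w.1.1 - e j) :=
    Finset.prod_congr rfl (fun j _ => by ring)
  rw [h3, ← h1] at h2
  unfold rD
  rw [mul_pow, ← h2, inv_pow, mul_assoc, mul_inv_cancel₀ (pow_ne_zero 2 (gi_ne hρ hs i hw)),
    mul_one]

theorem JD_rD (hρ : 0 < ρ) (hs : Sep ρ e) (i : Fin m) {w : DC e} (hw : w ∈ disc e ρ i) :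
    JD hρ hs i (rD e i w) = w := by
  apply Subtype.ext
  show ((e i + rD e i w ^ 2, rD e i w * gi e i (rD e i w ^ 2)) : ℂ × ℂ) = w.1
  rw [rD_sq hρ hs i hw]
  refine Prod.ext (by ring) ?_
  show rD e i w * gi e i (w.1.1 - e i) = w.1.2
  unfold rD
  rw [mul_assoc, inv_mul_cancel₀ (gi_ne hρ hs i hw), mul_one]

theorem rD_mem (hρ : 0 < ρ) (hs : Sep ρ e) (i : Fin m) {w : DC e} (hw : w ∈ disc e ρ i) :
    rD e i w ∈ VV ρ := by
  rw [mem_VV hρ, rD_sq hρ hs i hw]
  exact hw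

theorem disc_homotopic (hρ : 0 < ρ) (hs : Sep ρ e) (i : Fin m) {t t' : DC e} (γ γ' : Path t t')
    (h1 : ∀ τ, γ τ ∈ disc e ρ i) (h2 : ∀ τ, γ' τ ∈ disc e ρ i) : γ.Homotopic γ' :=
  homotopic_of_chart (convex_ball _ _) (JD_cont hρ hs i) (rD e i) (rD_cont hρ hs i)
    (fun w hw => rD_mem hρ hs i hw) (fun w hw => JD_rD hρ hs i hw) γ γ' h1 h2

theorem disc_joined (hρ : 0 < ρ) (hs : Sep ρ e) (i : Fin m) {t t' : DC e}
    (ht : t ∈ disc e ρ i) (ht' : t' ∈ disc e ρ i) : JoinedIn (disc e ρ i) t t' := by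
  have h2 := joinedIn_of_chart (E := disc e ρ i) (convex_ball _ _) (JD_cont hρ hs i)
    (fun s hs' => by
      show ‖(e i + s ^ 2) - e i‖ < ρ / 2
      rw [add_sub_cancel_left]
      exact (mem_VV hρ s).mp hs') (rD_mem hρ hs i ht) (rD_mem hρ hs i ht')
  rwa [JD_rD hρ hs i ht, JD_rD hρ hs i ht'] at h2

theorem sheet_disc_joined (h : Fin m → Fin 4) (b : Bool) (i : Fin m) {t t' : DC e}
    (ht : t ∈ sheet e h b ∩ disc e ρ i) (ht' : t' ∈ sheet e h b ∩ disc e ρ i) :
    JoinedIn (sheet e h b ∩ disc e ρ i) t t' := by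
  have hb : ∀ z : ℂ, z ∈ Metric.ball (e i) (ρ / 2) ↔ ‖z - e i‖ < ρ / 2 := fun z => by
    rw [mem_ball_iff_norm]
  have h2 := joinedIn_of_chart (E := sheet e h b ∩ disc e ρ i)
    ((convex_KK (e := e) h).inter (convex_ball (e i) (ρ / 2)))
    ((JJ_cont h b).mono inter_subset_left)
    (fun z hz => ⟨JJ_mem h b hz.1, (hb z).mp hz.2⟩)
    (a := t.1.1) (b := t'.1.1) ⟨ht.1.1, (hb _).mpr ht.2⟩ ⟨ht'.1.1, (hb _).mpr ht'.2⟩
  rwa [JJ_eq ht.1, JJ_eq ht'.1] at h2

end discs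

/-- the fundamental group of the affine curve is finitely generated -/
theorem fg_DC {m : ℕ} {e : Fin m → ℂ} (he : Function.Injective e) (w : DC e) :
    Group.FG (FundamentalGroup (DC e) w) := by
  obtain ⟨ρ, hρ, hs'⟩ := exists_sep (e := fun _ => e) continuous_const (fun _ _ => he)
  have hs : Sep ρ e := hs' 0 ⟨le_rfl, zero_le_one⟩
  let D : ((Fin m → Fin 4) × Bool) ⊕ Fin m → Set (DC e) :=
    Sum.elim (fun x => sheet e x.1 x.2) (fun i => disc e ρ i)
  refine Pool.Agent.W378.F4C.fundamentalGroup_fg D ?_ ?_ ?_ ?_ w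
  · rintro (⟨h, b⟩ | i)
    · exact isOpen_sheet h b
    · exact isOpen_disc ρ i
  · intro w
    by_cases h0 : ∃ i, w.1.1 = e i
    · obtain ⟨i, hi⟩ := h0
      refine ⟨Sum.inr i, ?_⟩
      show ‖w.1.1 - e i‖ < ρ / 2
      rw [hi, sub_self, norm_zero]
      positivity
    · push Not at h0
      choose h hh using fun i => exists_dir (sub_ne_zero.mpr (h0 i))
      have h1 : w.1.2 ^ 2 = SS e h w.1.1 ^ 2 := by
        rw [SS_sq]
        exact w.2
      rcases sq_eq_sq_iff_eq_or_eq_neg.mp h1 with h2 | h2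
      · exact ⟨Sum.inl (h, true), hh, by rw [h2]; simp [sgn]⟩
      · exact ⟨Sum.inl (h, false), hh, by rw [h2]; simp [sgn]⟩
  · rintro (⟨h, b⟩ | i) t t' γ γ' h1 h2
    · exact sheet_homotopic h b γ γ' h1 h2
    · exact disc_homotopic hρ hs i γ γ' h1 h2
  · rintro (⟨h, b⟩ | i) (⟨h', b'⟩ | j) t ht t' ht'
    · exact sheet_joined h h' b b' ht ht'
    · exact sheet_disc_joined h b j ht ht'
    · have h1 := sheet_disc_joined (ρ := ρ) h' b' i ⟨ht.2, ht.1⟩ ⟨ht'.2, ht'.1⟩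
      rwa [inter_comm] at h1
    · by_cases hij : i = j
      · subst hij
        have h1 := disc_joined hρ hs i ht.1 ht'.1
        rwa [← inter_self (disc e ρ i)] at h1
      · exfalso
        have h1 : ‖t.1.1 - e i‖ < ρ / 2 := ht.1
        have h2 : ‖t.1.1 - e j‖ < ρ / 2 := ht.2
        have h3 := hs i j hij
        have h4 : ‖e i - e j‖ ≤ ‖t.1.1 - e j‖ + ‖t.1.1 - e i‖ := by
          have := norm_sub_le (t.1.1 - e j) (t.1.1 - e i)
          rwa [show t.1.1 - e j - (t.1.1 - e i) = e i - e j by ring] at this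
        linarith

end Pool.Agent.X325.EC
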