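import Mathlib
import Pool.Agent.X325.EC.Gc
import Pool.Agent.X325.EC.Fam

/-! Polycyclic groups, and the finite generation of the fundamental groups of the fibres of the
families of hyperelliptic affine curves. -/

set_option autoImplicit false

open Topology Set Filter unitInterval

namespace Pool.Agent.X325.EC

open Pool.Agent.X325.HS Pool.Agent.Y193.CS Pool.Agent.Y193.FG

section fg

variable {G Q : Type} [Group G] [Group Q]

theorem fg_ext (f : G →* Q) (H : Subgroup G) (h1 : (H.map f).FG) (h2 : (H ⊓ f.ker).FG) :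
    H.FG := by
  classical
  obtain ⟨S', hS'⟩ := h1
  obtain ⟨T, hT⟩ := h2
  have h0 : ∀ s ∈ S', ∃ g ∈ H, f g = s := by
    intro s hs
    have h3 : s ∈ H.map f := hS' ▸ Subgroup.subset_closure hs
    exact h3
  choose! l hl hl' using h0
  refine ⟨S'.image l ∪ T, le_antisymm ?_ ?_⟩
  · rw [Subgroup.closure_le]
    intro x hx
    rw [Finset.coe_union, Finset.coe_image] at hx
    rcases hx with ⟨s, hs, rfl⟩ | hx
    · exact hl s hs
    · have h3 : x ∈ H ⊓ f.ker := hT ▸ Subgroup.subset_closure hx
      exact h3.1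
  · intro h hh
    have h3 : f h ∈ (Subgroup.closure (S'.image l : Set G)).map f := by
      rw [MonoidHom.map_closure]
      have h4 : f h ∈ H.map f := ⟨h, hh, rfl⟩
      rw [← hS'] at h4
      refine Subgroup.closure_mono ?_ h4
      intro s hs
      exact ⟨l s, by rw [Finset.coe_image]; exact ⟨s, hs, rfl⟩, hl' s hs⟩
    obtain ⟨s, hs, hs'⟩ := h3
    have hsH : s ∈ H := by
      have h5 : Subgroup.closure (S'.image l : Set G) ≤ H := by
        rw [Subgroup.closure_le, Finset.coe_image]
        rintro _ ⟨s, hs, rfl⟩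
        exact hl s hs
      exact h5 hs
    have h4 : s⁻¹ * h ∈ H ⊓ f.ker := ⟨H.mul_mem (H.inv_mem hsH) hh, by
      show f (s⁻¹ * h) = 1
      rw [map_mul, map_inv, hs', inv_mul_cancel]⟩
    rw [← hT] at h4
    rw [show h = s * (s⁻¹ * h) by group]
    refine Subgroup.mul_mem _ (Subgroup.closure_mono ?_ hs) (Subgroup.closure_mono ?_ h4)
    · rw [Finset.coe_union]
      exact subset_union_left
    · rw [Finset.coe_union]
      exact subset_union_right

theorem fg_map (f : G →* Q) (H : Subgroup G) (h : H.FG) : (H.map f).FG := by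
  classical
  obtain ⟨S, hS⟩ := h
  exact ⟨S.image f, by rw [Finset.coe_image, ← MonoidHom.map_closure, hS]⟩

theorem fg_of_map_inj (f : G →* Q) (hf : Function.Injective f) (H : Subgroup G)
    (h : (H.map f).FG) : H.FG := by
  refine fg_ext f H h ?_
  rw [(MonoidHom.ker_eq_bot_iff f).mpr hf, inf_bot_eq]
  exact ⟨∅, by simp⟩

end fg

/-- `G` is polycyclic: solvable, and every subgroup is finitely generated -/
def Poly (G : Type) [Group G] : Prop := Group.IsSolvable G ∧ ∀ H : Subgroup G, H.FG

theorem poly_isExtClass : IsExtClass Poly where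
  triv := by
    refine ⟨inferInstance, fun H => ⟨∅, ?_⟩⟩
    rw [Finset.coe_empty, Subgroup.closure_empty]
    exact Subsingleton.elim _ _
  sub := by
    intro G G' _ _ f hf h
    haveI := h.1
    exact ⟨solvable_of_solvable_injective hf, fun H => fg_of_map_inj f hf H (h.2 _)⟩
  quot := by
    intro G G' _ _ f hf h
    haveI := h.1
    refine ⟨solvable_of_surjective hf, fun H => ?_⟩
    rw [← Subgroup.map_comap_eq_self_of_surjective hf H]
    exact fg_map f _ (h.2 _)
  ext := by
    intro G _ N _ h h'
    haveI := h.1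
    haveI := h'.1
    refine ⟨solvable_of_ker_le_range N.subtype (QuotientGroup.mk' N) ?_, fun H => ?_⟩
    · rw [QuotientGroup.ker_mk', Subgroup.range_subtype]
    · refine fg_ext (QuotientGroup.mk' N) H (h'.2 _) ?_
      rw [QuotientGroup.ker_mk']
      have h1 : H ⊓ N = (H.subgroupOf N).map N.subtype := by
        rw [Subgroup.subgroupOf_map_subtype]
      rw [h1]
      exact fg_map _ _ (h.2 _)

theorem poly_of_comm_fg {G : Type} [Group G] (hc : ∀ a b : G, a * b = b * a) (h : Group.FG G) :
    Poly G := by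
  letI : CommGroup G := { (inferInstance : Group G) with mul_comm := hc }
  refine ⟨inferInstance, fun H => ?_⟩
  haveI : AddGroup.FG (Additive G) := AddGroup.fg_iff_mul_fg.mpr h
  haveI : Module.Finite ℤ (Additive G) := Module.Finite.iff_addGroup_fg.mpr inferInstance
  haveI : IsNoetherian ℤ (Additive G) := inferInstance
  rw [Subgroup.fg_iff_add_fg]
  have h1 := IsNoetherian.noetherian (R := ℤ) (AddSubgroup.toIntSubmodule (Subgroup.toAddSubgroup H))
  rw [Submodule.fg_iff_addSubgroup_fg] at h1
  exact h1

theorem poly_int : Poly (Multiplicative ℤ) :=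
  poly_of_comm_fg (fun a b => mul_comm a b) inferInstance

/-- finite generation of the fundamental group of a retract -/
theorem fg_retract {Z Z' : Type} [TopologicalSpace Z] [TopologicalSpace Z'] (f : C(Z, Z'))
    (g : C(Z', Z)) (hfg : ∀ z, f (g z) = z) (z : Z')
    (h : Group.FG (FundamentalGroup Z (g z))) : Group.FG (FundamentalGroup Z' z) := by
  have hF : Group.FG (FundamentalGroup Z' (f (g z))) := by
    refine Group.fg_of_surjective (f := FundamentalGroup.map f (g z)) ?_
    intro q
    obtain ⟨P, rfl⟩ := Path.Homotopic.Quotient.mk_surjective q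
    refine ⟨Path.Homotopic.Quotient.mk ((P.map g.continuous).cast
      (congrArg g (hfg z)).symm (congrArg g (hfg z)).symm), ?_⟩
    show Path.Homotopic.Quotient.mk _ = Path.Homotopic.Quotient.mk P
    congr 1
    ext t
    exact hfg (P t)
  rwa [hfg z] at hF

section

variable {a m : ℕ} {W : Set (Fin a → ℂ)} {e : Fin m → MvPolynomial (Fin a) ℂ}

theorem fg_Fib (hd : ∀ w ∈ W, ∀ i j, i ≠ j →
    MvPolynomial.eval w (e i) ≠ MvPolynomial.eval w (e j)) {y : Fin (a + 2) → ℂ}
    (hy : y ∈ CubY W e) (x : Fib (CubY W e) (CubPi a) y) :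
    Group.FG (FundamentalGroup (Fib (CubY W e) (CubPi a) y) x) := by
  have he : Function.Injective (brp e (fun j => y (Fin.castAdd 2 j))) := by
    intro i j hij
    by_contra hne
    exact hd _ hy.1 i j hne hij
  have hz : ∀ z : Fib (CubY W e) (CubPi a) y,
      (fun j => z.1 (Fin.castAdd 2 j)) = fun j => y (Fin.castAdd 2 j) := fun z =>
    funext (fun j => by
      have := z.2.2 j
      rwa [eval_CubPi, eval_CubPi] at this)
  let κ : C(Fib (CubY W e) (CubPi a) y, DC (brp e (fun j => y (Fin.castAdd 2 j)))) :=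
    ⟨fun z => ⟨(z.1 (Fin.natAdd a 0), z.1 (Fin.natAdd a 1)), by
      have h1 := ((mem_CubY_iff z.1).mp z.2.1).2
      rwa [hz z] at h1⟩, by
      refine Continuous.subtype_mk (Continuous.prodMk ?_ ?_) _
      · exact (continuous_apply _).comp continuous_subtype_val
      · exact (continuous_apply _).comp continuous_subtype_val⟩
  let κ' : C(DC (brp e (fun j => y (Fin.castAdd 2 j))), Fib (CubY W e) (CubPi a) y) :=
    ⟨fun w => ⟨cpt (fun j => y (Fin.castAdd 2 j)) w.1, (cpt_mem _ _).mpr ⟨hy.1, w.2⟩, fun j => by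
      rw [eval_CubPi, eval_CubPi, cpt_left]⟩,
      Continuous.subtype_mk (continuous_cpt continuous_const continuous_subtype_val) _⟩
  refine fg_retract κ' κ (fun z => ?_) x (fg_DC he _)
  apply Subtype.ext
  show cpt (fun j => y (Fin.castAdd 2 j)) (z.1 (Fin.natAdd a 0), z.1 (Fin.natAdd a 1)) = z.1
  rw [← hz z]
  exact cpt_eq _

end

/-- a commutative image of a finitely generated fundamental group -/
theorem poly_range {G G' : Type} [Group G] [Group G'] (f : G →* G') (h : Group.FG G)
    (hc : ∀ a b : G, f a * f b = f b * f a) : Poly f.range := by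
  refine poly_of_comm_fg ?_ ?_
  · rintro ⟨_, a, rfl⟩ ⟨_, b, rfl⟩
    exact Subtype.ext (hc a b)
  · exact Group.fg_of_surjective f.rangeRestrict_surjective

end Pool.Agent.X325.EC
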